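import Pool.Agent.P.MP_cd312e_ag.Sl2

/-!
A differential that is a highest weight operator of weight one for an sl2-triple, with hard
Lefschetz on cohomology: harmonic representatives and the dd-lemma.
-/

set_option linter.unusedSectionVars false

namespace RZW

open Module

variable {K E : Type*} [Field K] [AddCommGroup E] [Module K E]

/-- Commutator. -/
def ad (a t : End K E) : End K E := a * t - t * a

theorem ad_mul (a s t : End K E) : ad a (s * t) = ad a s * t + s * ad a t := by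
  unfold ad; noncomm_ring
theorem ad_ad (a s t : End K E) : ad a (ad s t) = ad (ad a s) t + ad s (ad a t) := by
  unfold ad; noncomm_ring
theorem ad_add (a s t : End K E) : ad a (s + t) = ad a s + ad a t := by
  unfold ad; noncomm_ring
theorem ad_neg (a t : End K E) : ad a (-t) = -ad a t := by
  unfold ad; noncomm_ring
theorem ad_zero (a : End K E) : ad a 0 = 0 := by simp [ad]
theorem zero_ad (a : End K E) : ad 0 a = 0 := by simp [ad]
theorem smul_ad (r : K) (a t : End K E) : ad (r • a) t = r • ad a t := by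
  simp [ad, smul_sub]
theorem ad_smul (r : K) (a t : End K E) : ad a (r • t) = r • ad a t := by
  simp [ad, smul_sub]
theorem ad_symm {a t : End K E} (h : ad a t = 0) : ad t a = 0 := by
  unfold ad at *; rw [sub_eq_zero] at *; exact h.symm
theorem ad_app (a t : End K E) (x : E) : a (t x) = t (a x) + ad a t x := by
  simp [ad]
theorem ad_app0 {a t : End K E} (h : ad a t = 0) (x : E) : a (t x) = t (a x) := by
  rw [ad_app, h]; simp
theorem ad_commute {a t : End K E} (h : ad a t = 0) : Commute a t := sub_eq_zero.1 h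
theorem pow_app0 {a t : End K E} (h : ad a t = 0) (k : ℕ) (x : E) :
    (a ^ k) (t x) = t ((a ^ k) x) := by
  have := ((ad_commute h).pow_left k).eq
  exact LinearMap.congr_fun this x

theorem hw_ad [CharZero K] [FiniteDimensional K E] {e f h T : End K E} (hef : ad e f = h)
    (hhe : ad h e = (2 : K) • e) (hhf : ad h f = (-2 : K) • f) (k : ℕ)
    (hT : ad h T = (-((k : K) + 1)) • T) (heT : ad e T = 0) : T = 0 :=
  hw_zero e f h T hef hhe hhf k hT (sub_eq_zero.1 heT)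

/-- An sl2-triple with a differential of weight one commuting with `L`. -/
structure S1 (K E : Type*) [Field K] [AddCommGroup E] [Module K E] where
  L : End K E
  Λ : End K E
  Y : End K E
  d : End K E
  LΛ : ad L Λ = Y
  YL : ad Y L = (2 : K) • L
  YΛ : ad Y Λ = (-2 : K) • Λ
  Ld : ad L d = 0
  Yd : ad Y d = d
  dd : d * d = 0
  gY : ⨆ k : ℤ, Y.eigenspace (k : K) = ⊤

namespace S1

variable (S : S1 K E)

def b : End K E := ad S.Λ S.d

/-- Hard Lefschetz on the cohomology of `d`. -/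
def HL : Prop :=
  (∀ (k : ℕ) x, S.d x = 0 → S.Y x = (-(k : K)) • x → (S.L ^ k) x ∈ LinearMap.range S.d →
    x ∈ LinearMap.range S.d) ∧
  ∀ (k : ℕ) y, S.d y = 0 → S.Y y = (k : K) • y →
    ∃ x, S.d x = 0 ∧ S.Y x = (-(k : K)) • x ∧ (S.L ^ k) x - y ∈ LinearMap.range S.d

def Z : Submodule K E := LinearMap.ker S.d ⊓ LinearMap.ker S.b

theorem mem_Z {x : E} : x ∈ S.Z ↔ S.d x = 0 ∧ S.b x = 0 := Iff.rfl

/-- The primitive component of `d t` for primitive `t` of weight `m - 1`. -/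
def dp (m : ℤ) : End K E := S.d - ((2 : K) - m)⁻¹ • (S.L * S.b)

theorem dp_app (m : ℤ) (x : E) : S.dp m x = S.d x - ((2 : K) - m)⁻¹ • S.L (S.b x) := rfl

theorem Lb : ad S.L S.b = S.d := by rw [b, ad_ad, S.LΛ, S.Ld, ad_zero, add_zero, S.Yd]
theorem Yb : ad S.Y S.b = -S.b := by
  rw [b, ad_ad, S.YΛ, S.Yd, smul_ad]; module

theorem eLΛ (x : E) : S.L (S.Λ x) = S.Λ (S.L x) + S.Y x := by rw [ad_app, S.LΛ]
theorem eYL (x : E) : S.Y (S.L x) = S.L (S.Y x) + (2 : K) • S.L x := by rw [ad_app, S.YL]; rfl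
theorem eYΛ (x : E) : S.Y (S.Λ x) = S.Λ (S.Y x) + (-2 : K) • S.Λ x := by rw [ad_app, S.YΛ]; rfl
theorem eYd (x : E) : S.Y (S.d x) = S.d (S.Y x) + S.d x := by rw [ad_app, S.Yd]
theorem eYb (x : E) : S.Y (S.b x) = S.b (S.Y x) - S.b x := by
  rw [ad_app, S.Yb, LinearMap.neg_apply, sub_eq_add_neg]
theorem eLd (x : E) : S.L (S.d x) = S.d (S.L x) := ad_app0 S.Ld x
theorem eLb (x : E) : S.L (S.b x) = S.b (S.L x) + S.d x := by rw [ad_app, S.Lb]
theorem eΛd (x : E) : S.Λ (S.d x) = S.d (S.Λ x) + S.b x := ad_app _ _ x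
theorem edd (x : E) : S.d (S.d x) = 0 := LinearMap.congr_fun S.dd x
theorem db : S.d * S.b + S.b * S.d = 0 := by
  have := congrArg (ad S.Λ) S.dd
  rw [ad_mul, ad_zero, add_comm] at this
  exact this
theorem edb (x : E) : S.d (S.b x) = -S.b (S.d x) :=
  eq_neg_of_add_eq_zero_left (LinearMap.congr_fun S.db x)

theorem wL {m : ℤ} {x : E} (hx : S.Y x = (m : K) • x) :
    S.Y (S.L x) = ((m + 2 : ℤ) : K) • S.L x := by
  rw [eYL, hx, map_smul]; push_cast; module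
theorem wΛ {m : ℤ} {x : E} (hx : S.Y x = (m : K) • x) :
    S.Y (S.Λ x) = ((m - 2 : ℤ) : K) • S.Λ x := by
  rw [eYΛ, hx, map_smul]; push_cast; module
theorem wd {m : ℤ} {x : E} (hx : S.Y x = (m : K) • x) :
    S.Y (S.d x) = ((m + 1 : ℤ) : K) • S.d x := by
  rw [eYd, hx, map_smul]; push_cast; module
theorem wb {m : ℤ} {x : E} (hx : S.Y x = (m : K) • x) :
    S.Y (S.b x) = ((m - 1 : ℤ) : K) • S.b x := by
  rw [eYb, hx, map_smul]; push_cast; module
theorem wLp {m : ℤ} {x : E} (hx : S.Y x = (m : K) • x) (j : ℕ) :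
    S.Y ((S.L ^ j) x) = ((m + 2 * j : ℤ) : K) • (S.L ^ j) x := wt_pow S.L S.Y S.eYL m x hx j

theorem πL (G : Grad S.Y) (k : ℤ) (x : E) : G.π k (S.L x) = S.L (G.π (k - 2) x) :=
  G.comm' S.L 2 (fun x => by rw [eYL]; norm_num) k x
theorem πΛ (G : Grad S.Y) (k : ℤ) (x : E) : G.π k (S.Λ x) = S.Λ (G.π (k + 2) x) := by
  rw [G.comm' S.Λ (-2) (fun x => by rw [eYΛ]; norm_num) k x, sub_neg_eq_add]
theorem πd (G : Grad S.Y) (k : ℤ) (x : E) : G.π k (S.d x) = S.d (G.π (k - 1) x) :=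
  G.comm' S.d 1 (fun x => by rw [eYd]; norm_num) k x
theorem πb (G : Grad S.Y) (k : ℤ) (x : E) : G.π k (S.b x) = S.b (G.π (k + 1) x) := by
  rw [G.comm' S.b (-1) (fun x => by rw [eYb]; norm_num [sub_eq_add_neg]) k x, sub_neg_eq_add]

variable [CharZero K] [FiniteDimensional K E]

theorem Λb : ad S.Λ S.b = 0 := by
  refine hw_ad S.LΛ S.YL S.YΛ 2 ?_ ?_
  · rw [ad_ad, S.YΛ, S.Yb, smul_ad, ad_neg]; push_cast; module
  · rw [ad_ad, S.LΛ, S.Lb, S.Yb]; exact neg_add_cancel _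
theorem eΛb (x : E) : S.Λ (S.b x) = S.b (S.Λ x) := ad_app0 S.Λb x
theorem bb : S.b * S.b = 0 := by
  have := congrArg (ad S.Λ) S.db
  rw [ad_add, ad_mul, ad_mul, ad_zero, S.Λb] at this
  simp only [mul_zero, zero_mul, add_zero, zero_add] at this
  have h2 : (2 : K) • (S.b * S.b) = 0 := by rw [two_smul]; exact this
  exact (smul_eq_zero.1 h2).resolve_left two_ne_zero
theorem ebb (x : E) : S.b (S.b x) = 0 := LinearMap.congr_fun S.bb x

theorem bas_inj (m : ℤ) (j : ℕ) (u : E) (hu : S.Y u = (m : K) • u) (hj : m + j ≤ 0)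
    (h0 : (S.L ^ j) u = 0) : u = 0 := by
  obtain ⟨M, hM⟩ := exists_bound S.Y
  exact lemS_inj S.L S.Λ S.Y M S.eLΛ S.eYL hM ⊤ ⊥ (by simp) (by simp)
    (fun m u _ hu => ⟨S.Λ u, trivial, S.wΛ hu, by simp⟩) (by simp) m j u trivial hu hj h0

theorem bas_surj (T : Submodule K E) (hL : ∀ x ∈ T, S.L x ∈ T) (hΛ : ∀ x ∈ T, S.Λ x ∈ T)
    (k : ℕ) (v : E) (hvT : v ∈ T) (hv : S.Y v = (k : K) • v) :
    ∃ u ∈ T, S.Y u = (-(k : K)) • u ∧ (S.L ^ k) u = v := by
  obtain ⟨M, hM⟩ := exists_bound S.Y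
  obtain ⟨u, hu, hu', h0⟩ := lemS_surj S.L S.Λ S.Y M S.eLΛ S.eYL hM T ⊥ hL (by simp)
    (fun m u huT hu => ⟨S.Λ u, hΛ u huT, S.wΛ hu, by simp⟩)
    (fun u _ hu => by rw [(Submodule.mem_bot K).1 hu]; simp) k v hvT hv
  exact ⟨u, hu, hu', sub_eq_zero.1 h0⟩

theorem prim_pos (m : ℤ) (hm : 1 ≤ m) (u : E) (hu : S.Y u = (m : K) • u) (h0 : S.Λ u = 0) :
    u = 0 := by
  obtain ⟨M, hM⟩ := exists_bound (-S.Y)
  refine lemS_inj S.Λ S.L (-S.Y) M (fun x => by rw [eLΛ]; simp)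
    (fun x => by simp only [LinearMap.neg_apply, eYΛ, map_neg]; module) hM ⊤ ⊥ (by simp) (by simp)
    (fun m u _ hu => ⟨S.L u, trivial, ?_, by simp⟩) (by simp) (-m) 1 u trivial
    (by simp [hu]) (by push_cast; omega) (by simpa using h0)
  have : S.Y u = ((-m : ℤ) : K) • u := by
    rw [LinearMap.neg_apply, neg_eq_iff_eq_neg] at hu; rw [hu]; simp
  rw [LinearMap.neg_apply, S.wL this]; push_cast; module

theorem prim_of (β : ℕ) (u : E) (hu : S.Y u = (-(β : K)) • u) (h0 : (S.L ^ (β + 1)) u = 0) :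
    S.Λ u = 0 := by
  have hu' : S.Y u = ((-β : ℤ) : K) • u := by rw [hu]; simp
  refine S.bas_inj _ (β + 1 + 1) _ (S.wΛ hu') (by push_cast; omega) ?_
  have := f_pow S.L S.Λ S.Y S.eLΛ S.eYL _ u hu' (β + 1)
  rw [pow_succ' S.L (β + 1), End.mul_apply, h0] at this
  simpa [pow_succ'] using this.symm

theorem prim_pow (β : ℕ) (u : E) (hu : S.Y u = (-(β : K)) • u) (h0 : S.Λ u = 0) :
    (S.L ^ (β + 1)) u = 0 := by
  have hu' : S.Y u = ((-β : ℤ) : K) • u := by rw [hu]; simp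
  refine S.prim_pos _ (by push_cast; omega) _ (S.wLp hu' (β + 1)) ?_
  rw [f_pow S.L S.Λ S.Y S.eLΛ S.eYL _ u hu' β, h0]; simp

theorem dec (m : ℤ) (u : E) (hu : S.Y u = (m : K) • u) :
    ∃ p v, S.Λ p = 0 ∧ S.Y p = (m : K) • p ∧ S.Y v = ((m - 2 : ℤ) : K) • v ∧ u = p + S.L v := by
  rcases le_or_gt m 0 with hm | hm
  · obtain ⟨β, rfl⟩ : ∃ β : ℕ, m = -β := ⟨(-m).toNat, by omega⟩
    obtain ⟨y, -, hy, hy'⟩ := S.bas_surj ⊤ (by simp) (by simp) (β + 2) _ trivial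
      (by rw [S.wLp hu (β + 1)]; congr 1; push_cast; ring)
    have hy2 : S.Y y = ((-β - 2 : ℤ) : K) • y := by rw [hy]; congr 1; push_cast; ring
    have hp : S.Y (u - S.L y) = ((-β : ℤ) : K) • (u - S.L y) := by
      rw [map_sub, hu, S.wL hy2, smul_sub]; congr 2; push_cast; ring
    refine ⟨u - S.L y, y, S.prim_of β _ (by rw [hp]; simp) ?_, hp, hy2, by simp⟩
    rw [map_sub, ← hy', ← End.mul_apply, ← pow_succ, sub_self]
  · obtain ⟨k, rfl⟩ : ∃ k : ℕ, m = (k + 1 : ℕ) := ⟨(m - 1).toNat, by omega⟩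
    obtain ⟨y, -, hy, hy'⟩ := S.bas_surj ⊤ (by simp) (by simp) (k + 1) u trivial
      (by rw [hu]; simp)
    have hy2 : S.Y y = ((-(k + 1) : ℤ) : K) • y := by rw [hy]; congr 1; push_cast; ring
    refine ⟨0, (S.L ^ k) y, by simp, by simp, ?_, ?_⟩
    · rw [S.wLp hy2]; congr 1; push_cast; ring
    · rw [zero_add, ← End.mul_apply, ← pow_succ', hy']

theorem uniq (m : ℤ) (p v : E) (hp : S.Λ p = 0) (hv : S.Y v = ((m - 2 : ℤ) : K) • v)
    (h : p = S.L v) : p = 0 := by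
  have hw : S.Y p = (m : K) • p := by rw [h, S.wL hv]; congr 2; ring
  rcases le_or_gt m 0 with hm | hm
  · obtain ⟨β, rfl⟩ : ∃ β : ℕ, m = -β := ⟨(-m).toNat, by omega⟩
    have h1 := S.prim_pow β p (by rw [hw]; simp) hp
    rw [h, ← End.mul_apply, ← pow_succ] at h1
    rw [h, S.bas_inj _ _ v hv (by push_cast; omega) h1, map_zero]
  · exact S.prim_pos m hm p hw hp

theorem prim1 (β : ℕ) (x : E) (hd : S.d x = 0) (hx : S.Y x = (-(β : K)) • x)
    (h : (S.L ^ (β + 1)) x ∈ LinearMap.range S.d) :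
    ∃ u, S.Λ u = 0 ∧ S.d u = 0 ∧ S.Y u = (-(β : K)) • u ∧ x - u ∈ LinearMap.range S.d := by
  obtain ⟨G⟩ := exists_grad S.Y S.gY
  obtain ⟨y, hy⟩ := h
  have hx' : S.Y x = ((-β : ℤ) : K) • x := by rw [hx]; simp
  have h1 : S.d (G.π (β + 1) y) = (S.L ^ (β + 1)) x := by
    have := congrArg (G.π (-β + 2 * (β + 1 : ℕ))) hy
    rw [S.πd, G.same _ _ (S.wLp hx' (β + 1))] at this
    rw [← this]; congr 2; push_cast; ring
  obtain ⟨y', -, hy', hy''⟩ := S.bas_surj ⊤ (by simp) (by simp) (β + 1) (G.π (β + 1) y) trivial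
    (by rw [G.wt]; simp)
  have hy2 : S.Y y' = ((-(β + 1) : ℤ) : K) • y' := by rw [hy']; congr 1; push_cast; ring
  have hu : S.Y (x - S.d y') = (-(β : K)) • (x - S.d y') := by
    rw [map_sub, hx, S.wd hy2, smul_sub]; congr 2; push_cast; ring
  refine ⟨x - S.d y', S.prim_of β _ hu ?_, by rw [map_sub, hd, edd, sub_zero], hu, ⟨y', by simp⟩⟩
  rw [map_sub, pow_app0 S.Ld, hy'', h1, sub_self]

theorem ZL : ∀ x ∈ S.Z, S.L x ∈ S.Z := by
  rintro x ⟨h1, h2⟩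
  have h1 : S.d x = 0 := h1
  have h2 : S.b x = 0 := h2
  refine S.mem_Z.2 ⟨by rw [← eLd, h1, map_zero], ?_⟩
  have := S.eLb x
  rw [h1, h2, map_zero, add_zero] at this
  exact this.symm

theorem ZΛ : ∀ x ∈ S.Z, S.Λ x ∈ S.Z := by
  rintro x ⟨h1, h2⟩
  have h1 : S.d x = 0 := h1
  have h2 : S.b x = 0 := h2
  refine S.mem_Z.2 ⟨?_, by rw [← eΛb, h2, map_zero]⟩
  have := S.eΛd x
  rw [h1, h2, map_zero, add_zero] at this
  exact this.symm

theorem Zπ (G : Grad S.Y) (k : ℤ) : ∀ x ∈ S.Z, G.π k x ∈ S.Z := by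
  rintro x ⟨h1, h2⟩
  have h1 : S.d x = 0 := h1
  have h2 : S.b x = 0 := h2
  refine S.mem_Z.2 ⟨?_, ?_⟩
  · have := S.πd G (k + 1) x
    rw [h1, map_zero, add_sub_cancel_right] at this
    exact this.symm
  · have := S.πb G (k - 1) x
    rw [h2, map_zero, sub_add_cancel] at this
    exact this.symm

theorem prim_Z {u : E} (h0 : S.Λ u = 0) (hd : S.d u = 0) : u ∈ S.Z := by
  refine S.mem_Z.2 ⟨hd, ?_⟩
  have := S.eΛd u
  rw [h0, hd] at this
  simpa using this.symm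

theorem rangeL : ∀ x ∈ LinearMap.range S.d, S.L x ∈ LinearMap.range S.d := by
  rintro x ⟨y, rfl⟩
  exact ⟨S.L y, (S.eLd y).symm⟩

variable {S}

/-- Every class has a harmonic representative. -/
theorem harm (H : S.HL) : LinearMap.ker S.d ≤ S.Z ⊔ LinearMap.range S.d := by
  obtain ⟨G⟩ := exists_grad S.Y S.gY
  have hQ : ∀ x ∈ S.Z ⊔ LinearMap.range S.d, S.L x ∈ S.Z ⊔ LinearMap.range S.d := by
    intro x hx
    obtain ⟨y, hy, w, hw, rfl⟩ := Submodule.mem_sup.1 hx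
    rw [map_add]
    exact Submodule.add_mem_sup (S.ZL y hy) (S.rangeL w hw)
  have key : ∀ (n : ℕ) (m : ℤ), m + G.M < n → ∀ x, S.d x = 0 → S.Y x = (m : K) • x →
      x ∈ S.Z ⊔ LinearMap.range S.d := by
    intro n
    induction n with
    | zero =>
      intro m hm x _ hx
      rw [G.bd m x hx (by rw [lt_abs]; right; omega)]; exact Submodule.zero_mem _
    | succ n ih =>
      intro m hm x hd hx
      rcases le_or_gt m 0 with hm0 | hm0
      · obtain ⟨β, rfl⟩ : ∃ β : ℕ, m = -β := ⟨(-m).toNat, by omega⟩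
        obtain ⟨y, hdy, hy, hy'⟩ := H.2 (β + 2) ((S.L ^ (β + 1)) x)
          (by rw [← pow_app0 S.Ld, hd, map_zero])
          (by rw [S.wLp hx (β + 1)]; congr 1; push_cast; ring)
        have hy2 : S.Y y = ((-β - 2 : ℤ) : K) • y := by rw [hy]; congr 1; push_cast; ring
        have hp : S.Y (x - S.L y) = (-(β : K)) • (x - S.L y) := by
          rw [map_sub, hx, S.wL hy2, smul_sub]; congr 2 <;> push_cast <;> ring
        obtain ⟨u, hu0, hud, -, hxu⟩ := S.prim1 β (x - S.L y)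
          (by rw [map_sub, ← eLd, hd, hdy, map_zero, sub_zero]) hp
          (by
            rw [map_sub, ← End.mul_apply, ← pow_succ, ← neg_sub]
            exact Submodule.neg_mem _ hy')
        have h1 := hQ y (ih _ (by omega) y hdy hy2)
        have h2 : x - S.L y ∈ S.Z ⊔ LinearMap.range S.d := by
          have := Submodule.add_mem_sup (S.prim_Z hu0 hud) hxu
          simpa using this
        simpa using Submodule.add_mem _ h2 h1
      · obtain ⟨k, rfl⟩ : ∃ k : ℕ, m = (k + 1 : ℕ) := ⟨(m - 1).toNat, by omega⟩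
        obtain ⟨y, hdy, hy, hy'⟩ := H.2 (k + 1) x hd (by rw [hx]; simp)
        have hy2 : S.Y y = ((-(k + 1) : ℤ) : K) • y := by rw [hy]; congr 1; push_cast; ring
        have h1 := hQ _ (ih _ (by push_cast at hm ⊢; omega) ((S.L ^ k) y)
          (by rw [← pow_app0 S.Ld, hdy, map_zero]) (S.wLp hy2 k))
        rw [← End.mul_apply, ← pow_succ'] at h1
        have := Submodule.sub_mem _ h1 (Submodule.mem_sup_right hy')
        simpa using this
  refine G.ind _ _ (fun k x hx => ?_) fun k x hx hk => key (k + G.M + 1).toNat k (by omega) x hx hk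
  have := S.πd G (k + 1) x
  rw [LinearMap.mem_ker.1 hx, map_zero, add_sub_cancel_right] at this
  exact this.symm

theorem BΛ (H : S.HL) : ∀ x ∈ S.Z ⊓ LinearMap.range S.d, S.Λ x ∈ S.Z ⊓ LinearMap.range S.d := by
  obtain ⟨G⟩ := exists_grad S.Y S.gY
  have hL : ∀ x ∈ S.Z ⊓ LinearMap.range S.d, S.L x ∈ S.Z ⊓ LinearMap.range S.d :=
    fun x hx => ⟨S.ZL x hx.1, S.rangeL x hx.2⟩
  have step : ∀ k : ℕ, (∀ x ∈ S.Z ⊓ LinearMap.range S.d, S.Y x = ((-k : ℤ) : K) • x →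
      S.Λ x ∈ LinearMap.range S.d) →
      ∀ x ∈ S.Z ⊓ LinearMap.range S.d, S.Y x = (k : K) • x → S.Λ x ∈ LinearMap.range S.d := by
    intro k hk x hx hw
    rcases k with _ | k
    · exact hk x hx (by simpa using hw)
    obtain ⟨y, hyZ, hy, hy'⟩ := S.bas_surj S.Z S.ZL S.ZΛ (k + 1) x hx.1 hw
    have hyd : y ∈ LinearMap.range S.d := H.1 (k + 1) y hyZ.1 hy (hy' ▸ hx.2)
    have hy2 : S.Y y = ((-(k + 1 : ℕ) : ℤ) : K) • y := by rw [hy]; simp
    rw [← hy', f_pow S.L S.Λ S.Y S.eLΛ S.eYL _ y hy2 k]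
    exact Submodule.sub_mem _ (pow_mem _ _ S.rangeL _ _ (hk y ⟨hyZ, hyd⟩ hy2))
      (Submodule.smul_mem _ _ (pow_mem _ _ S.rangeL _ _ hyd))
  have key : ∀ (n k : ℕ), G.M < k + n → ∀ x ∈ S.Z ⊓ LinearMap.range S.d,
      S.Y x = ((-k : ℤ) : K) • x → S.Λ x ∈ LinearMap.range S.d := by
    intro n
    induction n with
    | zero =>
      intro k hk x _ hx
      rw [G.bd _ x hx (by rw [lt_abs]; right; omega), map_zero]; exact Submodule.zero_mem _
    | succ n ih =>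
      intro k hk x hx hw
      refine H.1 (k + 1 + 1) (S.Λ x) (S.ZΛ x hx.1).1
        (by rw [S.wΛ hw]; congr 1; push_cast; ring) ?_
      have h1 := step (k + 4) (ih (k + 4) (by omega)) ((S.L ^ (k + 1 + 1)) x)
        (pow_mem _ _ hL _ _ hx) (by rw [S.wLp hw]; congr 1; push_cast; ring)
      rw [f_pow S.L S.Λ S.Y S.eLΛ S.eYL _ x hw (k + 1)] at h1
      have := Submodule.add_mem _ h1 (Submodule.smul_mem _
        ((((k + 1 : ℕ) : K) + 1) * (((-k : ℤ) : K) + (k + 1 : ℕ)))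
        (pow_mem _ _ S.rangeL (k + 1) _ hx.2))
      simpa using this
  have : S.Z ⊓ LinearMap.range S.d ≤ (S.Z ⊓ LinearMap.range S.d).comap S.Λ := by
    refine G.ind _ _ (fun k x hx => ⟨S.Zπ G k x hx.1, ?_⟩) fun k x hx hk => ⟨S.ZΛ x hx.1, ?_⟩
    · obtain ⟨y, rfl⟩ := hx.2
      exact ⟨_, (S.πd G k y).symm⟩
    · rcases le_or_gt k 0 with hm | hm
      · obtain ⟨β, rfl⟩ : ∃ β : ℕ, k = -β := ⟨(-k).toNat, by omega⟩
        exact key (G.M + 1) β (by omega) x hx hk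
      · obtain ⟨β, rfl⟩ : ∃ β : ℕ, k = β := ⟨k.toNat, by omega⟩
        exact step β (key (G.M + 1) β (by omega)) x hx (by simpa using hk)
  exact this

theorem nilL (S : S1 K E) : ∃ n, S.L ^ n = 0 := by
  obtain ⟨G⟩ := exists_grad S.Y S.gY
  refine ⟨2 * G.M + 1, ?_⟩
  have : (⊤ : Submodule K E) ≤ LinearMap.ker (S.L ^ (2 * G.M + 1)) := by
    refine G.ind _ _ (by simp) fun k x _ hk => ?_
    by_cases h : (G.M : ℤ) < |k|
    · rw [G.bd k x hk h]; exact Submodule.zero_mem _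
    · have := abs_le.1 (not_lt.1 h)
      exact G.bd _ _ (S.wLp hk _) (by rw [lt_abs]; left; push_cast; omega)
  ext x; exact this trivial

theorem nilΛ (S : S1 K E) : ∃ n, S.Λ ^ n = 0 := by
  obtain ⟨G⟩ := exists_grad S.Y S.gY
  refine ⟨2 * G.M + 1, ?_⟩
  have hw : ∀ (j : ℕ) (k : ℤ) x, S.Y x = (k : K) • x →
      S.Y ((S.Λ ^ j) x) = ((k - 2 * j : ℤ) : K) • (S.Λ ^ j) x := by
    intro j k x hx
    induction j with
    | zero => simpa using hx
    | succ j ih => rw [pow_succ', End.mul_apply, S.wΛ ih]; congr 1; push_cast; ring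
  have : (⊤ : Submodule K E) ≤ LinearMap.ker (S.Λ ^ (2 * G.M + 1)) := by
    refine G.ind _ _ (by simp) fun k x _ hk => ?_
    by_cases h : (G.M : ℤ) < |k|
    · rw [G.bd k x hk h]; exact Submodule.zero_mem _
    · have := abs_le.1 (not_lt.1 h)
      exact G.bd _ _ (hw _ _ _ hk) (by rw [lt_abs]; right; push_cast; omega)
  ext x; exact this trivial

theorem weyl (H : S.HL) : (∀ x, S.b x = 0 → ∃ z ∈ S.Z, ∃ y, x = z + S.b y) ∧
    ∀ s, S.d (S.b s) = 0 → S.b s ∈ LinearMap.range S.d := by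
  obtain ⟨n, hn⟩ := nilL S
  obtain ⟨n', hn'⟩ := nilΛ S
  obtain ⟨U, hU, hUi, hUs⟩ := exists_exp S.Λ S.d S.b n' hn' S.eΛd S.eΛb
  obtain ⟨V, hV, hVi, hVs⟩ := exists_exp S.L S.b S.d n hn S.eLb S.eLd
  have hL : ∀ x ∈ S.Z ⊓ LinearMap.range S.d, S.L x ∈ S.Z ⊓ LinearMap.range S.d :=
    fun x hx => ⟨S.ZL x hx.1, S.rangeL x hx.2⟩
  constructor
  · intro x hx
    obtain ⟨y, -, hy⟩ := (hUs ⊤ (by simp)).2 (V x) trivial
    have hdy : S.d y = 0 := by
      apply hUi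
      rw [hU, hy, add_comm, ← hV, hx, map_zero, map_zero]
    obtain ⟨z0, hz0, _, ⟨y', rfl⟩, rfl⟩ := Submodule.mem_sup.1 (harm H hdy)
    obtain ⟨z1, hz1, hz1'⟩ := (hVs S.Z S.ZL).2 _ ((hUs S.Z S.ZΛ).1 z0 hz0)
    obtain ⟨y'', -, hy''⟩ := (hVs ⊤ (by simp)).2 (U y') trivial
    refine ⟨z1, hz1, y'', hVi ?_⟩
    rw [← hy, map_add, map_add, hU, hV, hz1', hy'', add_comm (S.d _)]
  · intro s hs
    have hZ : S.b s ∈ S.Z := S.mem_Z.2 ⟨hs, S.ebb s⟩
    obtain ⟨s', -, hs'⟩ := (hUs ⊤ (by simp)).2 (V s) trivial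
    obtain ⟨z1, hz1, hz1'⟩ := (hUs S.Z S.ZΛ).2 _ ((hVs S.Z S.ZL).1 _ hZ)
    have h1 : U (S.d s') = V (S.b s) := by rw [hU, hV, hs', add_comm]
    have h2 : S.d s' = z1 := hUi (by rw [h1, hz1'])
    have h3 : S.d s' ∈ S.Z ⊓ LinearMap.range S.d := ⟨h2 ▸ hz1, s', rfl⟩
    obtain ⟨u', hu', hu''⟩ := (hVs _ hL).2 _ ((hUs _ (BΛ H)).1 _ h3)
    rw [h1] at hu''
    rw [← hVi hu'']
    exact hu'.2

/-- The dd-lemma. -/
theorem ddl (H : S.HL) : S.Z ⊓ LinearMap.range S.d ≤ LinearMap.range (S.d * S.b) := by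
  obtain ⟨G⟩ := exists_grad S.Y S.gY
  have key : ∀ (n : ℕ) (m : ℤ), m + G.M < n → ∀ x ∈ S.Z ⊓ LinearMap.range S.d,
      S.Y x = (m : K) • x → x ∈ LinearMap.range (S.d * S.b) := by
    intro n
    induction n with
    | zero =>
      intro m hm x _ hx
      rw [G.bd m x hx (by rw [lt_abs]; right; omega)]; exact Submodule.zero_mem _
    | succ n ih =>
      rintro m hm x ⟨hZ, y0, hy0⟩ hx
      have hy : S.d (G.π (m - 1) y0) = x := by rw [← S.πd, hy0, G.same _ _ hx]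
      set y := G.π (m - 1) y0
      have hdb : S.d (S.b y) = 0 := by rw [edb, hy, (S.mem_Z.1 hZ).2, neg_zero]
      obtain ⟨w', hw'⟩ := ih _ (by omega) (S.b y) ⟨S.mem_Z.2 ⟨hdb, S.ebb y⟩, (weyl H).2 y hdb⟩
        (S.wb (G.wt _ _))
      obtain ⟨z1, hz1, w, hw⟩ := (weyl H).1 (y + S.d w')
        (by rw [map_add, ← hw', End.mul_apply, edb]; simp)
      refine ⟨w, ?_⟩
      have := congrArg S.d hw
      rw [map_add, map_add, edd, hy, (S.mem_Z.1 hz1).1] at this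
      simpa using this.symm
  refine G.ind _ _ (fun k x hx => ⟨S.Zπ G k x hx.1, ?_⟩)
    fun k x hx hk => key (k + G.M + 1).toNat k (by omega) x hx hk
  obtain ⟨y, rfl⟩ := hx.2
  exact ⟨_, (S.πd G k y).symm⟩

theorem Zdb (H : S.HL) (t s : E) (h : S.d t + S.b s ∈ S.Z) :
    S.d t + S.b s ∈ LinearMap.range S.d := by
  have h1 := (S.mem_Z.1 h).1
  rw [map_add, edd, zero_add] at h1
  exact Submodule.add_mem _ ⟨t, rfl⟩ ((weyl H).2 s h1)

theorem kerdb (H : S.HL) (u : E) (h : S.d (S.b u) = 0) :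
    ∃ z ∈ S.Z, ∃ t s, u = z + S.d t + S.b s := by
  obtain ⟨y, hy⟩ := ddl H ⟨S.mem_Z.2 ⟨h, S.ebb u⟩, (weyl H).2 u h⟩
  obtain ⟨z, hz, s, hs⟩ := (weyl H).1 (u + S.d y)
    (by rw [map_add, ← hy, End.mul_apply, edb]; simp)
  refine ⟨z, hz, -y, s, ?_⟩
  rw [map_neg, ← sub_eq_iff_eq_add] at *
  rw [← hs]; abel

theorem dp_prim (S : S1 K E) (m : ℤ) (hm : m ≠ 2) (t : E) (h0 : S.Λ t = 0)
    (ht : S.Y t = ((m - 1 : ℤ) : K) • t) : S.Λ (S.dp m t) = 0 := by
  have hc : (2 : K) - m ≠ 0 := by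
    have : (2 - m : ℤ) ≠ 0 := by omega
    exact_mod_cast this
  have h1 : S.Λ (S.L (S.b t)) = ((2 : K) - m) • S.b t := by
    have := S.eLΛ (S.b t)
    rw [eΛb, h0, map_zero, map_zero, S.wb ht] at this
    rw [eq_neg_of_add_eq_zero_left this.symm]; push_cast; module
  rw [dp_app, map_sub, map_smul, h1, eΛd, h0, smul_smul, inv_mul_cancel₀ hc]; simp

theorem dp_wt (S : S1 K E) (m k : ℤ) (t : E) (ht : S.Y t = ((k - 1 : ℤ) : K) • t) :
    S.Y (S.dp m t) = (k : K) • S.dp m t := by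
  rw [dp_app, map_sub, map_smul, S.wd ht, S.wL (S.wb ht)]; push_cast; module

theorem b_prim (S : S1 K E) (t : E) (h0 : S.Λ t = 0) : S.Λ (S.b t) = 0 := by
  rw [eΛb, h0, map_zero]

theorem dp_eq (S : S1 K E) (m : ℤ) (t : E) :
    S.dp m t = S.d ((1 - ((2 : K) - m)⁻¹) • t) + S.b (-((2 : K) - m)⁻¹ • S.L t) := by
  rw [dp_app, eLb, map_smul, map_smul]; module

/-- A primitive element of the form `d t + b s + L v` is `dp t0 + b s0` with primitive `t0, s0`. -/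
theorem lemI (S : S1 K E) (m : ℤ) (hm : m ≠ 2) (k t s v : E) (h0 : S.Λ k = 0)
    (hk : S.Y k = (m : K) • k) (h : k = S.d t + S.b s + S.L v) :
    ∃ t0 s0, S.Λ t0 = 0 ∧ S.Y t0 = ((m - 1 : ℤ) : K) • t0 ∧ S.Λ s0 = 0 ∧
      S.Y s0 = ((m + 1 : ℤ) : K) • s0 ∧ k = S.dp m t0 + S.b s0 := by
  obtain ⟨G⟩ := exists_grad S.Y S.gY
  have h' := congrArg (G.π m) h
  rw [G.same _ _ hk, map_add, map_add, S.πd, S.πb, S.πL] at h'
  obtain ⟨t0, t1, ht0, ht0w, ht1, ht⟩ := S.dec _ _ (G.wt (m - 1) t)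
  obtain ⟨s0, s1, hs0, hs0w, hs1, hs⟩ := S.dec _ _ (G.wt (m + 1) s)
  obtain ⟨s2, s3, hs2, hs2w, hs3, hs'⟩ := S.dec _ _ hs1
  have hw : S.Y (t0 - s2) = ((m - 1 : ℤ) : K) • (t0 - s2) := by
    rw [map_sub, ht0w, hs2w]; push_cast; module
  have hp : S.Λ (t0 - s2) = 0 := by rw [map_sub, ht0, hs2, sub_zero]
  refine ⟨t0 - s2, s0, hp, hw, hs0, hs0w, ?_⟩
  have hb : S.b (S.L s1) = S.L (S.b s1) - S.d s1 := by rw [eLb]; abel
  have := S.uniq m (k - S.dp m (t0 - s2) - S.b s0)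
    (S.d t1 + S.b s1 - S.d s3 + G.π (m - 2) v + ((2 : K) - m)⁻¹ • S.b (t0 - s2))
    (by rw [map_sub, map_sub, h0, S.dp_prim m hm _ hp hw, S.b_prim _ hs0]; simp)
    (by
      rw [map_add, map_add, map_sub, map_add, map_smul, S.wd ht1, S.wb hs1, S.wd hs3, G.wt,
        S.wb hw]
      push_cast; module)
    (by
      rw [h', ht, hs, dp_app, map_add S.b, hb]
      conv_lhs => rw [hs']
      simp only [map_add, map_sub, map_smul, ← eLd]
      rw [← map_add, ← map_add, ← hs']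
      module)
  rw [sub_sub, sub_eq_zero] at this
  exact this

theorem lemF1 (S : S1 K E) (m : ℤ) (u y : E) (h0 : S.Λ u = 0) (hu : S.Y u = (m : K) • u)
    (h : S.d (S.b y) = u) : ∃ y0, S.Λ y0 = 0 ∧ S.Y y0 = (m : K) • y0 ∧ S.d (S.b y0) = u := by
  obtain ⟨G⟩ := exists_grad S.Y S.gY
  have h' := congrArg (G.π m) h
  rw [G.same _ _ hu, S.πd, S.πb, sub_add_cancel] at h'
  obtain ⟨y0, y1, hy0, hy0w, hy1, hy⟩ := S.dec _ _ (G.wt m y)
  refine ⟨y0, hy0, hy0w, ?_⟩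
  have hb : S.b (S.L y1) = S.L (S.b y1) - S.d y1 := by rw [eLb]; abel
  have := S.uniq m (u - S.d (S.b y0)) (S.d (S.b y1))
    (by rw [map_sub, h0, eΛd, S.b_prim _ hy0, ebb]; simp)
    (by rw [S.wd (S.wb hy1)]; congr 2; ring)
    (by rw [← h', hy, map_add, map_add, hb, map_sub, edd, eLd]; abel)
  exact (sub_eq_zero.1 this).symm

end S1

end RZW
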