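import Pool.Agent.P.MP_cd312e_ag.One

/-!
Two commuting sl2-triples and a differential of bi-weight (1,1): hard Lefschetz for the first
triple and semisimplicity at zero of the Laplacian give hard Lefschetz for the second triple.
-/

set_option linter.unusedSectionVars false

namespace RZW

open Module

variable {K E : Type*} [Field K] [AddCommGroup E] [Module K E]

/-- A second sl2-triple `N, N', X` and two projections. -/
structure S2 (K E : Type*) [Field K] [AddCommGroup E] [Module K E] extends S1 K E where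
  N : End K E
  N' : End K E
  X : End K E
  σ0 : End K E
  σ1 : End K E
  NN' : ad N N' = X
  XN : ad X N = (2 : K) • N
  XN' : ad X N' = (-2 : K) • N'
  NL : ad N L = 0
  NΛ : ad N Λ = 0
  NY : ad N Y = 0
  N'L : ad N' L = 0
  N'Λ : ad N' Λ = 0
  N'Y : ad N' Y = 0
  XL : ad X L = 0
  XΛ : ad X Λ = 0
  XY : ad X Y = 0
  Nd : ad N d = 0
  Xd : ad X d = d
  gX : ⨆ k : ℤ, X.eigenspace (k : K) = ⊤
  σ0L : ad σ0 L = 0
  σ0Λ : ad σ0 Λ = 0
  σ1L : ad σ1 L = 0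
  σ1Λ : ad σ1 Λ = 0
  Xσ0 : X * σ0 = 0
  N'σ0 : N' * σ0 = 0
  σ0d : σ0 * d = σ0 * d * σ1
  dσ0 : d * σ0 = σ1 * d * σ0

namespace S2

variable (S : S2 K E)

def c : End K E := ad S.N' S.d
def e : End K E := ad S.N' S.b
/-- The Laplacian. -/
def z : End K E := S.d * S.e + S.e * S.d

theorem Nb : ad S.N S.b = 0 := by
  rw [S1.b, ad_ad, S.NΛ, S.Nd, zero_ad, ad_zero, add_zero]
theorem Xb : ad S.X S.b = S.b := by
  rw [S1.b, ad_ad, S.XΛ, S.Xd, zero_ad, zero_add]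
theorem Nc : ad S.N S.c = S.d := by rw [c, ad_ad, S.NN', S.Nd, ad_zero, add_zero, S.Xd]
theorem Xc : ad S.X S.c = -S.c := by
  rw [c, ad_ad, S.XN', S.Xd, smul_ad]; module
theorem Le : ad S.L S.e = S.c := by
  rw [e, ad_ad, ad_symm S.N'L, zero_ad, zero_add, S.Lb, c]
theorem Ne : ad S.N S.e = S.b := by rw [e, ad_ad, S.NN', S.Nb, ad_zero, add_zero, S.Xb]
theorem Ye : ad S.Y S.e = -S.e := by
  rw [e, ad_ad, ad_symm S.N'Y, zero_ad, zero_add, S.Yb, ad_neg]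
theorem Xe : ad S.X S.e = -S.e := by
  rw [e, ad_ad, S.XN', S.Xb, smul_ad]; module
theorem dc : S.d * S.c + S.c * S.d = 0 := by
  have := congrArg (ad S.N') S.dd
  rw [ad_mul, ad_zero, add_comm] at this
  exact this
theorem bc : S.b * S.c + S.c * S.b = -S.z := by
  have := congrArg (ad S.N') S.db
  rw [ad_add, ad_mul, ad_mul, ad_zero] at this
  rw [eq_neg_iff_add_eq_zero, ← this, z, c, e]; abel
theorem Lz : ad S.L S.z = 0 := by
  rw [z, ad_add, ad_mul, ad_mul, S.Ld, S.Le, zero_mul, mul_zero, zero_add, add_zero, S.dc]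
theorem Nz : ad S.N S.z = 0 := by
  rw [z, ad_add, ad_mul, ad_mul, S.Nd, S.Ne, zero_mul, mul_zero, zero_add, add_zero, S.db]
theorem Yz : ad S.Y S.z = 0 := by
  rw [z, ad_add, ad_mul, ad_mul, S.Yd, S.Ye]; simp
theorem Xz : ad S.X S.z = 0 := by
  rw [z, ad_add, ad_mul, ad_mul, S.Xd, S.Xe]; simp
theorem dz : ad S.d S.z = 0 := by
  have : ad S.d S.z = S.d * S.d * S.e - S.e * (S.d * S.d) := by unfold ad z; noncomm_ring
  rw [this, S.dd]; simp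

variable [CharZero K] [FiniteDimensional K E]

theorem Λz : ad S.Λ S.z = 0 := by
  refine hw_ad S.LΛ S.YL S.YΛ 1 ?_ ?_
  · rw [ad_ad, S.YΛ, S.Yz, smul_ad, ad_zero]; push_cast; module
  · rw [ad_ad, S.LΛ, S.Lz, S.Yz, ad_zero, add_zero]
theorem N'z : ad S.N' S.z = 0 := by
  refine hw_ad S.NN' S.XN S.XN' 1 ?_ ?_
  · rw [ad_ad, S.XN', S.Xz, smul_ad, ad_zero]; push_cast; module
  · rw [ad_ad, S.NN', S.Nz, S.Xz, ad_zero, add_zero]
theorem bz : ad S.b S.z = 0 := by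
  apply ad_symm
  rw [S1.b, ad_ad, ad_symm S.Λz, ad_symm S.dz, zero_ad, ad_zero, add_zero]

theorem eN'db (x : E) :
    S.N' (S.d (S.b x)) = S.c (S.b x) + S.d (S.e x) + S.d (S.b (S.N' x)) := by
  rw [ad_app S.N' S.d, ad_app S.N' S.b, map_add]
  change S.d (S.b (S.N' x)) + S.d (S.e x) + S.c (S.b x) = _
  abel

theorem ez (x : E) : S.z x = S.d (S.e x) + S.e (S.d x) := rfl

theorem ecb (x : E) : S.c (S.b x) = -S.b (S.c x) - S.z x := by
  have := LinearMap.congr_fun S.bc x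
  simp only [LinearMap.add_apply, End.mul_apply, LinearMap.neg_apply] at this
  rw [sub_eq_add_neg, ← this]; abel

theorem σ0b (x : E) : S.σ0 (S.b x) = S.σ0 (S.b (S.σ1 x)) := by
  have h1 : ∀ y, S.σ0 (S.d y) = S.σ0 (S.d (S.σ1 y)) := fun y => LinearMap.congr_fun S.σ0d y
  have h2 : ∀ y, S.b y = S.Λ (S.d y) - S.d (S.Λ y) := fun y => rfl
  rw [h2, h2, map_sub, map_sub, ad_app0 S.σ0Λ, ad_app0 S.σ0Λ, h1 x, h1 (S.Λ x), ad_app0 S.σ1Λ]

/-- The Laplacian on primitive elements. -/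
theorem z_prim (u : E) (h0 : S.Λ u = 0) : S.z u = (2 : K) • S.d (S.Λ (S.N' (S.d u))) -
    S.d (S.Λ (S.d (S.N' u))) - S.N' (S.d (S.Λ (S.d u))) - S.Λ (S.d (S.N' (S.d u))) := by
  have h2 : ∀ y, S.b y = S.Λ (S.d y) - S.d (S.Λ y) := fun y => rfl
  have h3 : ∀ y, S.e y = S.N' (S.b y) - S.b (S.N' y) := fun y => rfl
  have h4 : S.Λ (S.N' u) = 0 := by rw [← ad_app0 S.N'Λ, h0, map_zero]
  simp only [ez, h3, h2, map_sub, h0, h4, S.edd, map_zero, ad_app0 S.N'Λ]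
  module

/-- Primitive elements of weight `m` fixed by `p`. -/
def P (p : End K E) (m : ℤ) : Submodule K E :=
  LinearMap.ker S.Λ ⊓ S.Y.eigenspace (m : K) ⊓ LinearMap.ker (1 - p)

theorem mem_P {p : End K E} {m : ℤ} {u : E} :
    u ∈ S.P p m ↔ S.Λ u = 0 ∧ S.Y u = (m : K) • u ∧ p u = u := by
  simp only [P, Submodule.mem_inf, LinearMap.mem_ker, End.mem_eigenspace_iff, LinearMap.sub_apply,
    End.one_apply, sub_eq_zero, and_assoc, eq_comm (a := u)]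

theorem main (H : S.HL) (β : ℕ)
    (H0 : ∀ u, S.Λ u = 0 → S.Y u = ((-β : ℤ) : K) • u → ∀ k : ℕ, (S.z ^ k) u = 0 →
      S.z u = S.σ0 (S.z u))
    (H1 : ∀ u, S.Λ u = 0 → S.Y u = ((-β - 1 : ℤ) : K) • u → ∀ k : ℕ, (S.z ^ k) u = 0 →
      S.σ1 (S.z u) = 0)
    (H2 : ∀ u, S.Λ u = 0 → S.Y u = ((-β + 1 : ℤ) : K) • u → ∀ k : ℕ, (S.z ^ k) u = 0 →
      S.σ1 (S.z u) = 0) (r : ℕ) :
    (∀ x, S.d x = 0 → S.X x = (-(r : K)) • x → S.Y x = (-(β : K)) • x →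
      (S.L ^ (β + 1)) x ∈ LinearMap.range S.d → (S.N ^ r) x ∈ LinearMap.range S.d →
      x ∈ LinearMap.range S.d) ∧
    ∀ y, S.d y = 0 → S.X y = (r : K) • y → S.Y y = (-(β : K)) • y →
      (S.L ^ (β + 1)) y ∈ LinearMap.range S.d →
      ∃ x, S.d x = 0 ∧ S.X x = (-(r : K)) • x ∧ S.Y x = (-(β : K)) • x ∧
        (S.L ^ (β + 1)) x ∈ LinearMap.range S.d ∧ (S.N ^ r) x - y ∈ LinearMap.range S.d := by
  rcases Nat.eq_zero_or_pos r with rfl | hr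
  · exact ⟨fun x _ _ _ _ h => by simpa using h,
      fun y h1 h2 h3 h4 => ⟨y, h1, by simpa using h2, h3, h4, by simp⟩⟩
  obtain ⟨p, R, k, hpp, hzp, hR, hcomm⟩ := exists_fitting S.z
  obtain ⟨G⟩ := exists_grad S.X S.gX
  have cp : ∀ {T : End K E}, ad T S.z = 0 → ∀ x, p (T x) = T (p x) := fun h x =>
    (LinearMap.congr_fun (hcomm _ (ad_commute h)).1.eq x).symm
  have zz : ad S.z S.z = 0 := sub_self _
  have epp : ∀ x, p (p x) = p x := fun x => LinearMap.congr_fun hpp x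
  have ezp : ∀ x, p x = x → (S.z ^ k) x = 0 := fun x hx => by
    rw [← hx]; exact LinearMap.congr_fun hzp x
  have eR : ∀ x, x - p x = S.z (R x) := fun x => LinearMap.congr_fun hR x
  have pz : ∀ x, S.z x = 0 → p x = x := fun x hx => by
    have := eR x
    rw [← End.mul_apply, (hcomm _ (Commute.refl _)).2.eq, End.mul_apply, hx, map_zero] at this
    exact (sub_eq_zero.1 this).symm
  have pd : ∀ x, S.d x = 0 → x - p x ∈ LinearMap.range S.d := fun x hx => by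
    have h1 : S.d (R x) = 0 := by
      rw [← End.mul_apply, (hcomm _ (ad_commute S.dz)).2.eq, End.mul_apply, hx, map_zero]
    exact ⟨S.e (R x), by rw [eR, ez, h1, map_zero, add_zero]⟩
  have pdp : ∀ m x, p (S.dp m x) = S.dp m (p x) := fun m x => by
    rw [S1.dp_app, S1.dp_app, map_sub, map_smul, cp S.dz, cp S.Lz, cp S.bz]
  have pP : ∀ (m : ℤ) u, S.Λ u = 0 → S.Y u = (m : K) • u → p u ∈ S.P p m := fun m u h1 h2 =>
    S.mem_P.2 ⟨by rw [← cp S.Λz, h1, map_zero], by rw [← cp S.Yz, h2, map_smul], epp u⟩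
  -- operators preserving `P`
  have TP : ∀ {T : End K E}, ad T S.Λ = 0 → ad T S.Y = 0 → (∀ x, p (T x) = T (p x)) →
      ∀ m, ∀ u ∈ S.P p m, T u ∈ S.P p m := fun hΛ hY hp m u hu => by
    obtain ⟨h1, h2, h3⟩ := S.mem_P.1 hu
    exact S.mem_P.2 ⟨by rw [← ad_app0 hΛ, h1, map_zero], by rw [← ad_app0 hY, h2, map_smul],
      by rw [hp, h3]⟩
  have eXd : ∀ x, S.X (S.d x) = S.d (S.X x) + ((1 : ℤ) : K) • S.d x := fun x => by
    rw [ad_app, S.Xd]; simp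
  have eXb : ∀ x, S.X (S.b x) = S.b (S.X x) + ((1 : ℤ) : K) • S.b x := fun x => by
    rw [ad_app, S.Xb]; simp
  have πd := G.comm' S.d 1 eXd
  have πb := G.comm' S.b 1 eXb
  have πL := G.comm0 S.L (ad_app0 S.XL)
  have πΛ := G.comm0 S.Λ (ad_app0 S.XΛ)
  have πY := G.comm0 S.Y (ad_app0 S.XY)
  have πz := G.comm0 S.z (ad_app0 S.Xz)
  have πp := G.comm0 p (fun x => (cp S.Xz x).symm)
  have πP : ∀ j m, ∀ u ∈ S.P p m, G.π j u ∈ S.P p m := fun j m u hu => by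
    obtain ⟨h1, h2, h3⟩ := S.mem_P.1 hu
    exact S.mem_P.2 ⟨by rw [← πΛ, h1, map_zero], by rw [← πY, h2, map_smul], by rw [← πp, h3]⟩
  have πdp : ∀ j m x, G.π j (S.dp m x) = S.dp m (G.π (j - 1) x) := fun j m x => by
    rw [S1.dp_app, S1.dp_app, map_sub, map_smul, πd, πL, πb]
  have K0 : ∀ u ∈ S.P p (-β), S.z u = S.σ0 (S.z u) := fun u hu =>
    H0 u (S.mem_P.1 hu).1 (S.mem_P.1 hu).2.1 k (ezp u (S.mem_P.1 hu).2.2)
  have K1 : ∀ u ∈ S.P p (-β - 1), S.σ1 (S.z u) = 0 := fun u hu =>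
    H1 u (S.mem_P.1 hu).1 (S.mem_P.1 hu).2.1 k (ezp u (S.mem_P.1 hu).2.2)
  have K2 : ∀ u ∈ S.P p (-β + 1), S.σ1 (S.z u) = 0 := fun u hu =>
    H2 u (S.mem_P.1 hu).1 (S.mem_P.1 hu).2.1 k (ezp u (S.mem_P.1 hu).2.2)
  have dpP : ∀ m : ℤ, m ≠ 2 → ∀ t ∈ S.P p (m - 1), S.dp m t ∈ S.P p m := fun m hm t ht => by
    obtain ⟨h1, h2, h3⟩ := S.mem_P.1 ht
    exact S.mem_P.2 ⟨S1.dp_prim _ m hm t h1 h2, S1.dp_wt _ m m t h2, by rw [pdp, h3]⟩
  have bP : ∀ m : ℤ, ∀ t ∈ S.P p (m + 1), S.b t ∈ S.P p m := fun m t ht => by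
    obtain ⟨h1, h2, h3⟩ := S.mem_P.1 ht
    exact S.mem_P.2 ⟨S1.b_prim _ t h1, by rw [S.wb h2, add_sub_cancel_right], by rw [cp S.bz, h3]⟩
  have XZ : ∀ u ∈ S.P p (-β), S.X (S.z u) = 0 := fun u hu => by
    rw [K0 u hu]; exact LinearMap.congr_fun S.Xσ0 _
  have Z1 : ∀ u ∈ S.P p (-β), ∀ c : K, c ≠ 0 → S.X u = c • u → S.z u = 0 := fun u hu c hc hx => by
    have := XZ u hu
    rw [ad_app0 S.Xz, hx, map_smul] at this
    exact (smul_eq_zero.1 this).resolve_left hc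
  have Z2 : ∀ u ∈ S.P p (-β), S.d (S.z u) = 0 := fun u hu => by
    have h1 : S.d (S.z u) = S.σ1 (S.z (S.d u)) := by
      rw [← ad_app0 S.dz, K0 u hu]; exact LinearMap.congr_fun S.dσ0 _
    have h2 : S.d u = S.dp (-β + 1) u + ((2 : K) - (-β + 1 : ℤ))⁻¹ • S.L (S.b u) := by
      rw [S1.dp_app]; abel
    have h3 := K2 _ (dpP (-β + 1) (by omega) u (by rwa [add_sub_cancel_right]))
    have h4 := K1 _ (bP (-β - 1) u (by rwa [sub_add_cancel]))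
    rw [h1, h2, map_add, map_add, h3, map_smul, map_smul, ← ad_app0 S.Lz, ad_app0 S.σ1L, h4]
    simp
  have Z3 : ∀ t ∈ S.P p (-β - 1), S.z (S.dp (-β) t) = 0 := fun t ht => by
    have h1 : ∀ y, S.σ0 (S.d y) = S.σ0 (S.d (S.σ1 y)) := fun y => LinearMap.congr_fun S.σ0d y
    rw [K0 _ (dpP _ (by omega) t ht), S1.dp_app, map_sub, map_smul, ← ad_app0 S.dz,
      ← ad_app0 S.Lz, ← ad_app0 S.bz, map_sub, map_smul, h1, ad_app0 S.σ0L, σ0b, K1 t ht]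
    simp
  have Z4 : ∀ s ∈ S.P p (-β + 1), S.z (S.b s) = 0 := fun s hs => by
    rw [K0 _ (bP _ s hs), ← ad_app0 S.bz, σ0b, K2 s hs]; simp
  let Z' : Submodule K E := S.P p (-β) ⊓ LinearMap.ker S.d ⊓ LinearMap.ker S.z
  let I' : Submodule K E := (S.P p (-β - 1)).map (S.dp (-β)) ⊔ (S.P p (-β + 1)).map S.b ⊔
    (S.P p (-β)).map S.z
  have mZ : ∀ u, u ∈ Z' ↔ u ∈ S.P p (-β) ∧ S.d u = 0 ∧ S.z u = 0 := fun u => by
    simp only [Z', Submodule.mem_inf, LinearMap.mem_ker, and_assoc]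
  have mI : ∀ u, u ∈ I' ↔ ∃ t ∈ S.P p (-β - 1), ∃ s ∈ S.P p (-β + 1), ∃ w ∈ S.P p (-β),
      u = S.dp (-β) t + S.b s + S.z w := fun u => by
    constructor
    · intro hu
      obtain ⟨_, h1, _, ⟨w, hw, rfl⟩, rfl⟩ := Submodule.mem_sup.1 hu
      obtain ⟨_, ⟨t, ht, rfl⟩, _, ⟨s, hs, rfl⟩, rfl⟩ := Submodule.mem_sup.1 h1
      exact ⟨t, ht, s, hs, w, hw, rfl⟩
    · rintro ⟨t, ht, s, hs, w, hw, rfl⟩
      exact Submodule.add_mem_sup (Submodule.add_mem_sup ⟨t, ht, rfl⟩ ⟨s, hs, rfl⟩) ⟨w, hw, rfl⟩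
  have LI : ∀ u ∈ S.P p (-β), ∀ t s v, u = S.d t + S.b s + S.L v →
      ∃ t ∈ S.P p (-β - 1), ∃ s ∈ S.P p (-β + 1), u = S.dp (-β) t + S.b s := by
    intro u hu t s v h
    obtain ⟨h1, h2, h3⟩ := S.mem_P.1 hu
    obtain ⟨t0, s0, a1, a2, a3, a4, a5⟩ := S1.lemI _ (-β) (by omega) u t s v h1 h2 h
    refine ⟨p t0, pP _ _ a1 a2, p s0, pP _ _ a3 a4, ?_⟩
    rw [← pdp, ← cp S.bz, ← map_add, ← a5, h3]
  have NP := TP S.NΛ S.NY (cp S.Nz)
  have N'P := TP S.N'Λ S.N'Y (cp S.N'z)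
  have zP := TP (ad_symm S.Λz) (ad_symm S.Yz) (cp zz)
  have hZ : ∀ u ∈ Z', S.N u ∈ Z' := fun u hu => by
    obtain ⟨h1, h2, h3⟩ := (mZ u).1 hu
    exact (mZ _).2 ⟨NP _ u h1, by rw [← ad_app0 S.Nd, h2, map_zero],
      by rw [← ad_app0 S.Nz, h3, map_zero]⟩
  have hI : ∀ u ∈ I', S.N u ∈ I' := fun u hu => by
    obtain ⟨t, ht, s, hs, w, hw, rfl⟩ := (mI u).1 hu
    refine (mI _).2 ⟨_, NP _ t ht, _, NP _ s hs, _, NP _ w hw, ?_⟩
    rw [map_add, map_add, ad_app0 S.Nb, ad_app0 S.Nz, S1.dp_app, S1.dp_app, map_sub, map_smul,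
      ad_app0 S.Nd, ad_app0 S.NL, ad_app0 S.Nb]
  have key : ∀ u ∈ I', S.d u = 0 → ∃ w ∈ S.P p (-β),
      u - S.z w ∈ S.Z ⊓ LinearMap.range S.d := fun u hu hd => by
    obtain ⟨t, ht, s, hs, w, hw, rfl⟩ := (mI u).1 hu
    have hP := Submodule.add_mem _ (dpP _ (by omega) t ht) (bP _ s hs)
    have hZ0 : S.dp (-β) t + S.b s ∈ S.Z := by
      refine S.prim_Z (S.mem_P.1 hP).1 ?_
      rwa [map_add, Z2 w hw, add_zero] at hd
    refine ⟨w, hw, ?_⟩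
    rw [add_sub_cancel_right]
    refine ⟨hZ0, ?_⟩
    rw [S1.dp_eq, add_assoc, ← map_add] at hZ0 ⊢
    exact S1.Zdb H _ _ hZ0
  have key2 : ∀ u ∈ I', S.d u = 0 → ∀ m : ℤ, m ≠ 0 → S.X u = (m : K) • u →
      u ∈ LinearMap.range S.d := fun u hu hd m hm hx => by
    obtain ⟨w, hw, -, y, hy⟩ := key u hu hd
    have := congrArg (G.π m) hy
    rw [πd, map_sub, G.same _ _ hx, G.ne m 0 _ (by rw [XZ w hw]; simp) hm, sub_zero] at this
    exact ⟨_, this⟩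
  have hf1 : ∀ (m : ℤ), ∀ u ∈ Z', S.X u = (m : K) • u →
      ∃ u1 ∈ Z', S.X u1 = ((m - 2 : ℤ) : K) • u1 ∧ S.N' u - u1 ∈ I' := fun m u hu hx => by
    obtain ⟨h1, h2, h3⟩ := (mZ u).1 hu
    have hb : S.b u = 0 := (S.mem_Z.1 (S.prim_Z (S.mem_P.1 h1).1 h2)).2
    have h4 : S.d (S.b (S.N' u)) = 0 := by
      have := S.eN'db u
      rw [ez, h2, map_zero, add_zero] at h3
      rw [hb, h3] at this
      simpa using this.symm
    have h5 := N'P _ u h1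
    obtain ⟨G'⟩ := exists_grad S.Y S.gY
    obtain ⟨z1, hz1, t, s, h6⟩ := S1.kerdb H _ h4
    have hz2 := S.Zπ G' (-β) z1 hz1
    have h7 := congrArg (G'.π (-β)) h6
    rw [G'.same _ _ (S.mem_P.1 h5).2.1, map_add, map_add, S.πd, S.πb] at h7
    obtain ⟨z3, hz3, hz3w, hz3'⟩ := S.bas_surj S.Z S.ZL S.ZΛ (β + 2)
      ((S.L ^ (β + 1)) (G'.π (-β) z1)) (pow_mem _ _ S.ZL _ _ hz2)
      (by rw [S.wLp (G'.wt _ _)]; congr 1; push_cast; ring)
    have hz3w' : S.Y z3 = ((-β - 2 : ℤ) : K) • z3 := by rw [hz3w]; congr 1; push_cast; ring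
    have hw : S.Y (G'.π (-β) z1 - S.L z3) = ((-β : ℤ) : K) • (G'.π (-β) z1 - S.L z3) := by
      rw [map_sub, G'.wt, S.wL hz3w', smul_sub]; congr 2; push_cast; ring
    have hq : S.Λ (G'.π (-β) z1 - S.L z3) = 0 :=
      S.prim_of β _ (by rw [hw]; simp)
        (by rw [map_sub, ← hz3', ← End.mul_apply, ← pow_succ, sub_self])
    have hqd : S.d (G'.π (-β) z1 - S.L z3) = 0 :=
      (S.mem_Z.1 (S.Z.sub_mem hz2 (S.ZL _ hz3))).1
    set q := G'.π (-β) z1 - S.L z3 with hqdef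
    have hq' := pP _ q hq hw
    obtain ⟨t0, ht0, s0, hs0, h8⟩ := LI (S.N' u - p q) (Submodule.sub_mem _ h5 hq')
      (p (G'.π (-β - 1) t)) (p (G'.π (-β + 1) s)) (p z3) (by
        rw [← (S.mem_P.1 h5).2.2, h7, ← cp S.dz, ← cp S.bz, ← cp S.Lz, ← map_sub, ← map_add,
          ← map_add, hqdef]
        congr 1; abel)
    have hx' : S.X (S.N' u) = ((m - 2 : ℤ) : K) • S.N' u := by
      rw [ad_app, S.XN', hx, map_smul, LinearMap.smul_apply]; push_cast; module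
    have h9 := congrArg (G.π (m - 2)) h8
    rw [map_sub, G.same _ _ hx', map_add, πdp, πb] at h9
    refine ⟨G.π (m - 2) (p q), (mZ _).2 ⟨πP _ _ _ hq', ?_, ?_⟩, G.wt _ _,
      (mI _).2 ⟨_, πP (m - 2 - 1) _ _ ht0, _, πP (m - 2 - 1) _ _ hs0, 0, Submodule.zero_mem _,
        by rw [h9]; simp⟩⟩
    · have := πd (m - 2 + 1) (p q)
      rw [← cp S.dz, hqd, map_zero, map_zero, add_sub_cancel_right] at this
      exact this.symm
    · have := congrArg S.z h9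
      rw [map_sub, map_add, Z3 _ (πP _ _ _ ht0), Z4 _ (πP _ _ _ hs0), ← ad_app0 S.N'z, h3] at this
      simpa using this
  have hf2 : ∀ u ∈ Z', u ∈ I' → S.N' u ∈ I' := fun u hu huI => by
    obtain ⟨h1, h2, h3⟩ := (mZ u).1 hu
    obtain ⟨w, hw, h4⟩ := key u huI h2
    obtain ⟨y, hy⟩ := S1.ddl H h4
    have h5 := Submodule.sub_mem _ h1 (zP _ w hw)
    obtain ⟨y0, a1, a2, a3⟩ := S1.lemF1 _ (-β) _ y (S.mem_P.1 h5).1 (S.mem_P.1 h5).2.1 hy
    have h6 := pP _ y0 a1 a2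
    have h7 : S.d (S.b (p y0)) = u - S.z w := by
      rw [← cp S.bz, ← cp S.dz, a3, (S.mem_P.1 h5).2.2]
    have h8 : S.N' (S.z w) = 0 := by rw [K0 w hw]; exact LinearMap.congr_fun S.N'σ0 _
    have h9 := S.eN'db (p y0)
    rw [h7, map_sub, h8, sub_zero, ecb] at h9
    obtain ⟨t0, ht0, s0, hs0, h10⟩ := LI (S.N' u + S.z (p y0))
      (Submodule.add_mem _ (N'P _ u h1) (zP _ _ h6))
      (S.e (p y0) + S.b (S.N' (p y0))) (-S.c (p y0)) 0
      (by rw [h9, map_add, map_neg, map_zero]; abel)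
    refine (mI _).2 ⟨t0, ht0, s0, hs0, -p y0, Submodule.neg_mem _ h6, ?_⟩
    rw [← h10, map_neg]; abel
  have eNN' : ∀ x, S.N (S.N' x) = S.N' (S.N x) + S.X x := fun x => by rw [ad_app, S.NN']
  have eXN : ∀ x, S.X (S.N x) = S.N (S.X x) + (2 : K) • S.N x := fun x => by
    rw [ad_app, S.XN]; rfl
  have rN : ∀ x ∈ LinearMap.range S.d, S.N x ∈ LinearMap.range S.d := by
    rintro x ⟨y, rfl⟩; exact ⟨S.N y, (ad_app0 S.Nd y).symm⟩
  have red : ∀ (m : ℤ) x, m ≠ 0 → S.d x = 0 → S.X x = (m : K) • x → S.Y x = (-(β : K)) • x →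
      (S.L ^ (β + 1)) x ∈ LinearMap.range S.d →
      ∃ u ∈ Z', S.X u = (m : K) • u ∧ x - u ∈ LinearMap.range S.d := by
    intro m x hm hd hx hy hL
    obtain ⟨u, a1, a2, a3, a4⟩ := S.prim1 β x hd hy hL
    have b1 := πP m _ _ (pP (-β) u a1 (by rw [a3]; simp))
    have b2 : S.d (G.π m (p u)) = 0 := by
      have := πd (m + 1) (p u)
      rw [← cp S.dz, a2, map_zero, map_zero, add_sub_cancel_right] at this
      exact this.symm
    refine ⟨G.π m (p u), (mZ _).2 ⟨b1, b2, Z1 _ b1 m (by exact_mod_cast hm) (G.wt _ _)⟩,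
      G.wt _ _, ?_⟩
    obtain ⟨y, hy⟩ := Submodule.add_mem _ a4 (pd u a2)
    have := congrArg (G.π m) hy
    rw [πd, sub_add_sub_cancel, map_sub, G.same _ _ hx] at this
    exact ⟨_, this⟩
  constructor
  · intro x hd hx hy hL hN
    obtain ⟨u, hu, hux, hxu⟩ := red (-r) x (by omega) hd (by rw [hx]; simp) hy hL
    have h1 : (S.N ^ r) u ∈ LinearMap.range S.d := by
      have := Submodule.sub_mem _ hN (pow_mem _ _ rN r _ hxu)
      simpa using this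
    obtain ⟨y, hy'⟩ := h1
    obtain ⟨t0, ht0, s0, hs0, h2⟩ := LI _ ((mZ _).1 (pow_mem _ _ hZ r u hu)).1 y 0 0
      (by simp [hy'])
    have h3 : u ∈ I' := lemS_inj S.N S.N' S.X G.M eNN' eXN G.bd Z' I' hZ hI hf1 hf2 (-r) r u hu
      hux (by omega) ((mI _).2 ⟨t0, ht0, s0, hs0, 0, Submodule.zero_mem _, by simp [h2]⟩)
    have := Submodule.add_mem _ hxu (key2 u h3 ((mZ _).1 hu).2.1 (-r) (by omega) hux)
    simpa using this
  · intro y hd hx hy hL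
    obtain ⟨u, hu, hux, hxu⟩ := red r y (by omega) hd (by rw [hx]; simp) hy hL
    obtain ⟨v, hv, hvx, h1⟩ := lemS_surj S.N S.N' S.X G.M eNN' eXN G.bd Z' I' hZ hI hf1 hf2 r u hu
      (by rw [hux]; simp)
    obtain ⟨b1, b2, b3⟩ := (mZ _).1 hv
    have hvy : S.Y v = (-(β : K)) • v := by rw [(S.mem_P.1 b1).2.1]; simp
    refine ⟨v, b2, hvx, hvy, ?_, ?_⟩
    · rw [S.prim_pow β v hvy (S.mem_P.1 b1).1]; exact Submodule.zero_mem _
    · have h2 := key2 _ h1 ((mZ _).1 (Submodule.sub_mem _ (pow_mem _ _ hZ r v hv) hu)).2.1 r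
        (by omega) (by
          rw [map_sub, wt_pow S.N S.X eXN (-r) v (by rw [hvx]; simp), hux, smul_sub]
          congr 2; push_cast; ring)
      have := Submodule.sub_mem _ h2 hxu
      convert this using 1; abel

end S2

end RZW
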