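import Mathlib

/-!
First pages of weight spectral sequences as bigraded complexes with a monodromy sl2-triple,
Lefschetz sl2-triples, product decompositions and Lefschetz type morphisms.
-/

namespace Pool.Agent.P.MP_cd312e_ag.CI

open Module

variable {K E F : Type} [Field K] [AddCommGroup E] [Module K E] [AddCommGroup F] [Module K F]

/-- `T f = f S + c f`: the map `f` raises eigenvalues by `c`; for `c = 0` it intertwines. -/
def Sh (f : E →ₗ[K] F) (S : End K E) (T : End K F) (c : K) : Prop :=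
  ∀ x, T (f x) = f (S x) + c • f x

/-- Diagonalisable with integer eigenvalues. -/
def Gr (h : End K E) : Prop := ⨆ k : ℤ, h.eigenspace (k : K) = ⊤

/-- An sl2-triple. -/
structure Sl2 (e f h : End K E) : Prop where
  ef : ⁅e, f⁆ = h
  he : Sh e h h 2
  hf : Sh f h h (-2)
  gr : Gr h

/-- A first page: `X` is the column index, `Y` the total degree minus the dimension, `d` the
differential, `N` the monodromy. -/
structure Page (K E : Type) [Field K] [AddCommGroup E] [Module K E] where
  N : End K E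
  N' : End K E
  X : End K E
  Y : End K E
  d : End K E
  sl2 : Sl2 N N' X
  gr : Gr Y
  dd : d * d = 0
  Nd : Commute N d
  Xd : Sh d X X 1
  Yd : Sh d Y Y 1
  YN : Commute Y N
  YN' : Commute Y N'

/-- A first page with a Lefschetz operator. -/
structure LPage (K E : Type) [Field K] [AddCommGroup E] [Module K E] extends Page K E where
  L : End K E
  Λ : End K E
  lef : Sl2 L Λ Y
  Ld : Commute L d
  NL : Commute N L
  NΛ : Commute N Λ
  N'L : Commute N' L
  N'Λ : Commute N' Λ

/-- `N ^ r` is a bijection from the column `-r` to the column `r` of the second page. -/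
def Page.WM (P : Page K E) : Prop := ∀ r : ℕ,
  (∀ x, P.d x = 0 → P.X x = -(r : K) • x → (P.N ^ r) x ∈ LinearMap.range P.d →
    x ∈ LinearMap.range P.d) ∧
  ∀ y, P.d y = 0 → P.X y = (r : K) • y →
    ∃ x, P.d x = 0 ∧ P.X x = -(r : K) • x ∧ (P.N ^ r) x - y ∈ LinearMap.range P.d

/-- The Laplacian `d e + e d`, `e = [N', [Λ, d]]`. -/
def Lap (Λ N' d : End K E) : End K E := d * ⁅N', ⁅Λ, d⁆⁆ + ⁅N', ⁅Λ, d⁆⁆ * d

/-- The operators are sums of operators of factors; different factors commute, their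
differentials anticommute. -/
structure Split {ι : Type} [Fintype ι] (P : LPage K E) (Λ N' d : ι → End K E) : Prop where
  sΛ : P.Λ = ∑ i, Λ i
  sN : P.N' = ∑ i, N' i
  sd : P.d = ∑ i, d i
  comm : ∀ i j, i ≠ j → Commute (Λ i) (Λ j) ∧ Commute (Λ i) (N' j) ∧ Commute (N' i) (N' j) ∧
    Commute (Λ i) (d j) ∧ Commute (N' i) (d j) ∧ d i * d j + d j * d i = 0

/-- A map of pages raising `Y` by `c`. -/
def Mor (f : E →ₗ[K] F) (P : Page K E) (Q : Page K F) (c : ℕ) : Prop :=
  Sh f P.d Q.d 0 ∧ Sh f P.N Q.N 0 ∧ Sh f P.X Q.X 0 ∧ Sh f P.Y Q.Y c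

/-- Pull-back `p` and push-forward `q` of a morphism of Lefschetz type of codimension `c`. -/
structure Lefs (P : LPage K E) (Q : Page K F) (c : ℕ) (p : E →ₗ[K] F) (q : F →ₗ[K] E) : Prop where
  pull : Mor p P.toPage Q c
  push : Mor q Q P.toPage c
  proj : ∀ x, q (p x) = (P.L ^ c) x
  surj : ∀ m : ℤ, m < 0 → ∀ y, Q.Y y = (m : K) • y → y ∈ LinearMap.range p
  inj : ∀ m : ℤ, 0 < m → ∀ y, Q.Y y = (m : K) • y → q y = 0 → y = 0

end Pool.Agent.P.MP_cd312e_ag.CI
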