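import Pool.Agent.P.MP_cd312e_ag.Abs
import Pool.Agent.P.MP_cd312e_ag.CIDefs

/-!
Weight-monodromy for morphisms of Lefschetz type into products.
-/

set_option linter.unusedSectionVars false

namespace RZW

open Module

variable {K E F : Type*} [Field K] [AddCommGroup E] [Module K E] [AddCommGroup F] [Module K F]

theorem Grad.comm2 {h : End K E} {h' : End K F} (G : Grad h) (G' : Grad h') (T : E →ₗ[K] F)
    (s : ℤ) (hT : ∀ x, h' (T x) = T (h x) + (s : K) • T x) (k : ℤ) (x : E) :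
    G'.π (k + s) (T x) = T (G.π k x) := by
  have key : ∀ (m : ℤ) y, h y = (m : K) • y → G'.π (k + s) (T y) = T (G.π k y) := by
    intro m y hy
    have hTy : h' (T y) = ((m + s : ℤ) : K) • T y := by
      rw [hT, hy, map_smul, Int.cast_add, add_smul]
    by_cases hk : k = m
    · subst hk; rw [G.same _ _ hy, G'.same _ _ hTy]
    · rw [G.ne k m y hy hk, G'.ne (k + s) (m + s) _ hTy (by omega), map_zero]
  conv_lhs => rw [← G.sum x]
  conv_rhs => rw [← G.sum x]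
  simp only [map_sum]
  exact Finset.sum_congr rfl fun m _ => key m _ (G.wt m x)

theorem common_eig [IsAlgClosed K] [FiniteDimensional K E] {ι : Type*} (f : ι → End K E)
    (hf : ∀ i j, Commute (f i) (f j)) (W : Submodule K E) (hW : W ≠ ⊥)
    (hs : ∀ i, ∀ x ∈ W, f i x ∈ W) (s : Finset ι) :
    ∃ V ≤ W, V ≠ ⊥ ∧ (∀ i, ∀ x ∈ V, f i x ∈ V) ∧
      ∃ μ : ι → K, ∀ i ∈ s, ∀ x ∈ V, f i x = μ i • x := by
  classical
  induction s using Finset.induction_on with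
  | empty => exact ⟨W, le_rfl, hW, hs, 0, by simp⟩
  | insert a s _ ih =>
    obtain ⟨V, hVW, hV, hst, μ, hμ⟩ := ih
    have : Nontrivial V := Submodule.nontrivial_iff_ne_bot.2 hV
    obtain ⟨c, hc⟩ := End.exists_eigenvalue ((f a).restrict (hst a))
    obtain ⟨v, hv⟩ := hc.exists_hasEigenvector
    refine ⟨V ⊓ (f a).eigenspace c, inf_le_left.trans hVW, ?_, fun i x hx => ⟨hst i x hx.1, ?_⟩,
      Function.update μ a c, fun i hi x hx => ?_⟩
    · rw [Submodule.ne_bot_iff]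
      exact ⟨v.1, ⟨v.2, End.mem_eigenspace_iff.2 (congrArg Subtype.val hv.apply_eq_smul)⟩,
        fun h => hv.2 (Subtype.ext h)⟩
    · refine End.mem_eigenspace_iff.2 ?_
      rw [← End.mul_apply, (hf a i).eq, End.mul_apply, End.mem_eigenspace_iff.1 hx.2, map_smul]
    · by_cases h : i = a
      · subst h; rw [Function.update_self]; exact End.mem_eigenspace_iff.1 hx.2
      · rw [Function.update_of_ne h]
        exact hμ i ((Finset.mem_insert.1 hi).resolve_left h) x hx.1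

/-- Without cancellation of eigenvalues, the generalised kernel of a sum of commuting operators
lies in the generalised kernel of each of them. -/
theorem ker_sum [IsAlgClosed K] [FiniteDimensional K E] {ι : Type*} [Fintype ι] (f : ι → End K E)
    (hf : ∀ i j, Commute (f i) (f j))
    (hC : ∀ μ : ι → K, (∀ i, (f i).HasEigenvalue (μ i)) → ∑ i, μ i = 0 → ∀ i, μ i = 0)
    (k : ℕ) (x : E) (hx : ((∑ i, f i) ^ k) x = 0) (i : ι) : ∃ n : ℕ, (f i ^ n) x = 0 := by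
  obtain ⟨p, R, n, hpp, hzp, hR, hcomm⟩ := exists_fitting (f i)
  have cz : ∀ {T : End K E}, (∀ j, Commute T (f j)) → ∀ y,
      ((∑ i, f i) ^ k) (T y) = T (((∑ i, f i) ^ k) y) := fun h y =>
    (LinearMap.congr_fun ((Commute.sum_right _ _ _ fun j _ => h j).pow_right k).eq y).symm
  have cp : ∀ j y, p (f j y) = f j (p y) := fun j y =>
    (LinearMap.congr_fun (hcomm _ (hf j i)).1.eq y).symm
  have hW : LinearMap.ker ((∑ i, f i) ^ k) ⊓ LinearMap.ker p = ⊥ := by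
    by_contra hW
    obtain ⟨V, hVW, hV, -, μ, hμ⟩ := common_eig f hf _ hW (fun j y hy =>
      ⟨LinearMap.mem_ker.2 (by rw [cz (hf j), LinearMap.mem_ker.1 hy.1, map_zero]),
        LinearMap.mem_ker.2 (by rw [cp, LinearMap.mem_ker.1 hy.2, map_zero])⟩) Finset.univ
    obtain ⟨v, hv, hv0⟩ := (Submodule.ne_bot_iff V).1 hV
    have h1 : ∀ j, f j v = μ j • v := fun j => hμ j (Finset.mem_univ j) v hv
    have h2 : (∑ i, f i).HasEigenvector (∑ i, μ i) v :=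
      ⟨End.mem_eigenspace_iff.2 (by simp [h1, Finset.sum_smul]), hv0⟩
    have h3 := h2.pow_apply k
    rw [LinearMap.mem_ker.1 (hVW hv).1] at h3
    have h4 := hC μ (fun j => End.hasEigenvalue_of_hasEigenvector
      ⟨End.mem_eigenspace_iff.2 (h1 j), hv0⟩)
      (pow_eq_zero_iff'.1 ((smul_eq_zero.1 h3.symm).resolve_right hv0)).1 i
    have h5 : v - p v = f i (R v) := LinearMap.congr_fun hR v
    rw [LinearMap.mem_ker.1 (hVW hv).2, sub_zero, ← End.mul_apply,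
      (hcomm _ (Commute.refl _)).2.eq, End.mul_apply, h1, h4, zero_smul, map_zero] at h5
    exact hv0 h5
  have h6 : x - p x ∈ LinearMap.ker ((∑ i, f i) ^ k) ⊓ LinearMap.ker p :=
    ⟨LinearMap.mem_ker.2 (by
        rw [map_sub, cz fun j => (hcomm _ (hf j i)).1.symm, hx, map_zero, sub_zero]),
      LinearMap.mem_ker.2 (by rw [map_sub, ← End.mul_apply, hpp, sub_self])⟩
  rw [hW, Submodule.mem_bot, sub_eq_zero] at h6
  exact ⟨n, by rw [h6]; exact LinearMap.congr_fun hzp x⟩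

theorem S1.sur [CharZero K] [FiniteDimensional K E] (S : S1 K E) (T : Submodule K E)
    (hL : ∀ x ∈ T, S.L x ∈ T) (hΛ : ∀ x ∈ T, S.Λ x ∈ T) (m : ℤ) (j : ℕ) (hj : j = 0 ∨ j ≤ m)
    (v : E) (hvT : v ∈ T) (hv : S.Y v = (m : K) • v) :
    ∃ u ∈ T, S.Y u = ((m - 2 * j : ℤ) : K) • u ∧ (S.L ^ j) u = v := by
  rcases hj with rfl | hj
  · exact ⟨v, hvT, by simpa using hv, rfl⟩
  obtain ⟨n, rfl⟩ : ∃ n : ℕ, m = (j + n : ℕ) := ⟨(m - j).toNat, by omega⟩
  obtain ⟨u, hu, h1, h2⟩ := S.bas_surj T hL hΛ (j + n) v hvT (by rw [hv]; simp)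
  refine ⟨(S.L ^ n) u, pow_mem _ _ hL n u hu, ?_, by rw [← End.mul_apply, ← pow_add, h2]⟩
  rw [S.wLp (m := -(j + n : ℕ)) (by rw [h1]; simp)]; congr 1; push_cast; ring

namespace S2

variable (S : S2 K E)

/-- The monodromy triple with the differential. -/
def flip : S1 K E := ⟨S.N, S.N', S.X, S.d, S.NN', S.XN, S.XN', S.Nd, S.Xd, S.dd, S.gX⟩

theorem Lc : ad S.L S.c = 0 := by
  rw [c, ad_ad, ad_symm S.N'L, S.Ld, zero_ad, ad_zero, add_zero]
theorem Yc : ad S.Y S.c = S.c := by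
  rw [c, ad_ad, ad_symm S.N'Y, S.Yd, zero_ad, zero_add]

/-- The image under `L ^ j` of the boundaries of weight `m - 2 j`. -/
def I (m : ℤ) (j : ℕ) : Submodule K E :=
  (LinearMap.range S.d ⊓ S.Y.eigenspace ((m - 2 * j : ℤ) : K)).map (S.L ^ j)

theorem mem_I {m : ℤ} {j : ℕ} {x : E} : x ∈ S.I m j ↔ ∃ w ∈ LinearMap.range S.d,
    S.Y w = ((m - 2 * j : ℤ) : K) • w ∧ (S.L ^ j) w = x := by
  simp only [I, Submodule.mem_map, Submodule.mem_inf, End.mem_eigenspace_iff, and_assoc]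

variable [CharZero K] [FiniteDimensional K E]

theorem cz : ad S.c S.z = 0 := by
  apply ad_symm
  rw [c, ad_ad, ad_symm S.N'z, ad_symm S.dz, zero_ad, ad_zero, add_zero]

theorem mlem (H : ∀ x (k : ℕ), (S.z ^ k) x = 0 → S.d x = 0) (m : ℤ) (j : ℕ)
    (hj : j = 0 ∨ j ≤ m) (r : ℕ) :
    (∀ x, S.d x = 0 → S.Y x = (m : K) • x → S.X x = (-(r : K)) • x → (S.N ^ r) x ∈ S.I m j →
      x ∈ S.I m j) ∧
    ∀ y, S.d y = 0 → S.Y y = (m : K) • y → S.X y = (r : K) • y →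
      ∃ x, S.d x = 0 ∧ S.Y x = (m : K) • x ∧ S.X x = (-(r : K)) • x ∧
        (S.N ^ r) x - y ∈ S.I m j := by
  obtain ⟨p, R, k, -, hzp, hR, hcomm⟩ := exists_fitting S.z
  obtain ⟨M, hM⟩ := exists_bound S.X
  have cp : ∀ {T : End K E}, ad T S.z = 0 → ∀ x, p (T x) = T (p x) := fun h x =>
    (LinearMap.congr_fun (hcomm _ (ad_commute h)).1.eq x).symm
  have cR : ∀ {T : End K E}, ad T S.z = 0 → ∀ x, T (R x) = R (T x) := fun h x =>
    LinearMap.congr_fun (hcomm _ (ad_commute h)).2.eq x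
  have eR : ∀ x, x - p x = S.z (R x) := fun x => LinearMap.congr_fun hR x
  have dp : ∀ x, S.d (p x) = 0 := fun x => H _ k (LinearMap.congr_fun hzp x)
  have bp : ∀ x, S.b (p x) = 0 := fun x => by
    change S.Λ (S.d (p x)) - S.d (S.Λ (p x)) = 0
    rw [← cp S.Λz, dp, dp, map_zero, sub_zero]
  have cp0 : ∀ x, S.c (p x) = 0 := fun x => by
    change S.N' (S.d (p x)) - S.d (S.N' (p x)) = 0
    rw [← cp S.N'z, dp, dp, map_zero, sub_zero]
  have ex : ∀ x, S.d x = 0 → p x = 0 → x ∈ LinearMap.range S.d := fun x hx hp => by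
    have h1 : S.d (R x) = 0 := by rw [cR S.dz, hx, map_zero]
    have h2 := eR x
    rw [hp, sub_zero, ez, h1, map_zero, add_zero] at h2
    exact ⟨_, h2.symm⟩
  have edc : ∀ x, S.d (S.c x) = -S.c (S.d x) := S.flip.edb
  have ecc : ∀ x, S.c (S.c x) = 0 := S.flip.ebb
  have dec : ∀ x, x - (p x - S.c (S.b (R x))) = -S.b (S.c (R x)) := fun x => by
    rw [ecb, ← eR]; abel
  have Ybc : ad S.Y (S.b * S.c) = 0 := by rw [ad_mul, S.Yb, S.Yc]; simp
  have Ycb : ad S.Y (S.c * S.b) = 0 := by rw [ad_mul, S.Yb, S.Yc]; simp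
  have Xcb : ad S.X (S.c * S.b) = 0 := by rw [ad_mul, S.Xb, S.Xc]; simp
  have wt : ∀ {T A : End K E}, ad T A = 0 → ad T S.z = 0 → ∀ (a : K) x, T x = a • x →
      T (A (R x)) = a • A (R x) := fun h1 h2 a x hx => by
    rw [ad_app0 h1, cR h2, hx, map_smul, map_smul]
  have mB : ∀ x, S.d x = 0 → S.b (S.c (R x)) ∈ S.Z ⊓ LinearMap.ker p := fun x hx =>
    ⟨S.mem_Z.2 ⟨by rw [S.edb, edc, cR S.dz, hx]; simp, S.ebb _⟩,
      LinearMap.mem_ker.2 (by rw [cp S.bz, bp])⟩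
  have mC : ∀ x, S.d x = 0 → S.c (S.b (R x)) ∈ S.flip.Z := fun x hx =>
    S.flip.mem_Z.2 ⟨show S.d _ = 0 by rw [edc, S.edb, cR S.dz, hx]; simp, ecc _⟩
  have hL : ∀ x ∈ S.Z ⊓ LinearMap.ker p, S.L x ∈ S.Z ⊓ LinearMap.ker p := fun x hx =>
    ⟨S.ZL x hx.1, LinearMap.mem_ker.2 (by rw [cp S.Lz, LinearMap.mem_ker.1 hx.2, map_zero])⟩
  have hΛ : ∀ x ∈ S.Z ⊓ LinearMap.ker p, S.Λ x ∈ S.Z ⊓ LinearMap.ker p := fun x hx =>
    ⟨S.ZΛ x hx.1, LinearMap.mem_ker.2 (by rw [cp S.Λz, LinearMap.mem_ker.1 hx.2, map_zero])⟩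
  let Z' : Submodule K E := S.flip.Z ⊓ S.Y.eigenspace (m : K)
  have mZ : ∀ u, u ∈ Z' ↔ u ∈ S.flip.Z ∧ S.Y u = (m : K) • u := fun u => by
    simp only [Z', Submodule.mem_inf, End.mem_eigenspace_iff]
  have red : ∀ (a : K) x, S.d x = 0 → S.Y x = (m : K) • x → S.X x = a • x →
      ∃ u ∈ Z', S.X u = a • u ∧ x - u ∈ S.I m j := fun a x hd hy hx => by
    refine ⟨p x - S.c (S.b (R x)), (mZ _).2 ⟨Submodule.sub_mem _
      (S.flip.mem_Z.2 ⟨dp x, cp0 x⟩) (mC x hd), ?_⟩, ?_, ?_⟩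
    · rw [map_sub, ← cp S.Yz, hy, map_smul, smul_sub]
      exact congrArg _ (wt Ycb S.Yz _ x hy)
    · rw [map_sub, ← cp S.Xz, hx, map_smul, smul_sub]
      exact congrArg _ (wt Xcb S.Xz _ x hx)
    · obtain ⟨w, hw, h1, h2⟩ := S.sur _ hL hΛ m j hj _ (mB x hd) (wt Ybc S.Yz _ x hy)
      rw [dec]
      exact Submodule.neg_mem _ (S.mem_I.2 ⟨w, ex w hw.1.1 hw.2, h1, h2⟩)
  have hZ : ∀ u ∈ Z', S.N u ∈ Z' := fun u hu =>
    (mZ _).2 ⟨S.flip.ZL u hu.1, by rw [← ad_app0 S.NY, ((mZ u).1 hu).2, map_smul]⟩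
  have hI : ∀ u ∈ S.I m j, S.N u ∈ S.I m j := fun u hu => by
    obtain ⟨w, hw, h1, rfl⟩ := S.mem_I.1 hu
    exact S.mem_I.2 ⟨S.N w, S.flip.rangeL w hw, by rw [← ad_app0 S.NY, h1, map_smul],
      pow_app0 (ad_symm S.NL) j w⟩
  have hf1 : ∀ (n : ℤ), ∀ u ∈ Z', S.X u = (n : K) • u →
      ∃ u1 ∈ Z', S.X u1 = ((n - 2 : ℤ) : K) • u1 ∧ S.N' u - u1 ∈ S.I m j := fun n u hu hx =>
    ⟨S.N' u, (mZ _).2 ⟨S.flip.ZΛ u hu.1, by rw [← ad_app0 S.N'Y, ((mZ u).1 hu).2, map_smul]⟩,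
      S.flip.wΛ hx, by simp⟩
  have hf2 : ∀ u ∈ Z', u ∈ S.I m j → S.N' u ∈ S.I m j := fun u hu huI => by
    obtain ⟨_, ⟨y, rfl⟩, h1, h2⟩ := S.mem_I.1 huI
    have h3 := dec (S.d y)
    rw [cp S.dz, dp, zero_sub, sub_neg_eq_add] at h3
    have h4 := pow_mem _ _ hL j _ (mB _ (S.edd y))
    have h5 := congrArg (S.L ^ j) h3
    rw [map_add, map_neg, h2] at h5
    have h6 := congrArg S.c h5
    rw [map_add, ← pow_app0 S.Lc, ecc, map_zero, add_zero, map_neg,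
      show S.c u = 0 from hu.1.2, zero_eq_neg] at h6
    have h7 := S.ecb ((S.L ^ j) (S.b (S.c (R (S.d y)))))
    rw [h6, show S.b _ = 0 from h4.1.2] at h7
    have h8 := eR ((S.L ^ j) (S.b (S.c (R (S.d y)))))
    rw [LinearMap.mem_ker.1 h4.2, sub_zero, cR (T := S.z) (sub_self _),
      show S.z _ = 0 by simpa using h7, map_zero] at h8
    rw [h8, neg_zero, add_eq_zero_iff_eq_neg] at h5
    rw [h5, map_neg]
    refine Submodule.neg_mem _ (S.mem_I.2 ⟨S.N' (S.c (S.b (R (S.d y)))),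
      ex _ (S.flip.ZΛ _ (mC _ (S.edd y))).1 (by rw [cp S.N'z, cp S.cz, cp0, map_zero]), ?_,
      pow_app0 (ad_symm S.N'L) j _⟩)
    rw [← ad_app0 S.N'Y, ← map_smul]
    exact congrArg _ (wt Ycb S.Yz _ _ h1)
  constructor
  · intro x hd hy hx hN
    obtain ⟨u, hu, hux, hxu⟩ := red _ x hd hy hx
    have h1 : (S.N ^ r) u ∈ S.I m j := by
      simpa using Submodule.sub_mem _ hN (pow_mem _ _ hI r _ hxu)
    have h3 := lemS_inj S.N S.N' S.X M S.flip.eLΛ S.flip.eYL hM Z' _ hZ hI hf1 hf2 (-r) r u hu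
      (by rw [hux]; simp) (by omega) h1
    simpa using Submodule.add_mem _ hxu h3
  · intro y hd hy hx
    obtain ⟨u, hu, hux, hxu⟩ := red _ y hd hy hx
    obtain ⟨v, hv, hvx, h1⟩ := lemS_surj S.N S.N' S.X M S.flip.eLΛ S.flip.eYL hM Z' _ hZ hI hf1
      hf2 r u hu hux
    exact ⟨v, hv.1.1, ((mZ v).1 hv).2, hvx, by simpa using Submodule.sub_mem _ h1 hxu⟩

end S2

end RZW

namespace Pool.Agent.P.MP_cd312e_ag.CI

open Module RZW

variable {K E F : Type} [Field K] [AddCommGroup E] [Module K E] [AddCommGroup F] [Module K F]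

theorem Sh.ad {f h : End K E} {c : K} (H : Sh f h h c) : ad h f = c • f := by
  ext x; simp [RZW.ad, H x]

theorem Sh.zero {f : E →ₗ[K] F} {S : End K E} {T : End K F} (H : Sh f S T 0) (x : E) :
    T (f x) = f (S x) := by simpa using H x

theorem Sh.pow {f : E →ₗ[K] F} {S : End K E} {T : End K F} (H : Sh f S T 0) (k : ℕ) (x : E) :
    (T ^ k) (f x) = f ((S ^ k) x) := by
  induction k with
  | zero => rfl
  | succ k ih => rw [pow_succ', pow_succ', End.mul_apply, End.mul_apply, ih, H.zero]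

theorem Sh.wt {f : E →ₗ[K] F} {S : End K E} {T : End K F} {c : ℕ} (H : Sh f S T c) {m : ℤ} {x : E}
    (hx : S x = (m : K) • x) {n : ℤ} (hn : n = m + c) : T (f x) = (n : K) • f x := by
  rw [H, hx, map_smul, hn]; push_cast; module

theorem ad0 {a t : End K E} (h : Commute a t) : ad a t = 0 := sub_eq_zero.2 h.eq

/-- The monodromy triple of a page. -/
def Page.s1 (P : Page K E) : S1 K E :=
  ⟨P.N, P.N', P.X, P.d, P.sl2.ef, P.sl2.he.ad, P.sl2.hf.ad, ad0 P.Nd,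
    by rw [P.Xd.ad, one_smul], P.dd, P.sl2.gr⟩

theorem Page.comm (P : Page K E) {T : End K E} (h1 : Commute P.N T) (h2 : Commute P.N' T) :
    ad P.X T = 0 := by
  apply ad_symm
  rw [← show ad P.N P.N' = P.X from P.sl2.ef, ad_ad, ad0 h1.symm, ad0 h2.symm, zero_ad, ad_zero,
    add_zero]

/-- The two triples of a page with a Lefschetz operator. -/
def LPage.s2 (P : LPage K E) : S2 K E where
  L := P.L
  Λ := P.Λ
  Y := P.Y
  d := P.d
  N := P.N
  N' := P.N'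
  X := P.X
  σ0 := 0
  σ1 := 0
  LΛ := P.lef.ef
  YL := P.lef.he.ad
  YΛ := P.lef.hf.ad
  Ld := ad0 P.Ld
  Yd := by rw [P.Yd.ad, one_smul]
  dd := P.dd
  gY := P.gr
  NN' := P.sl2.ef
  XN := P.sl2.he.ad
  XN' := P.sl2.hf.ad
  NL := ad0 P.NL
  NΛ := ad0 P.NΛ
  NY := ad0 P.YN.symm
  N'L := ad0 P.N'L
  N'Λ := ad0 P.N'Λ
  N'Y := ad0 P.YN'.symm
  XL := P.comm P.NL P.N'L
  XΛ := P.comm P.NΛ P.N'Λ
  XY := P.comm P.YN.symm P.YN'.symm
  Nd := ad0 P.Nd
  Xd := by rw [P.Xd.ad, one_smul]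
  gX := P.sl2.gr
  σ0L := zero_ad _
  σ0Λ := zero_ad _
  σ1L := zero_ad _
  σ1Λ := zero_ad _
  Xσ0 := mul_zero _
  N'σ0 := mul_zero _
  σ0d := by simp
  dσ0 := by simp

theorem ad_sum {ι : Type} [Fintype ι] (a t : ι → End K E) (h : ∀ i j, i ≠ j → ad (a i) (t j) = 0) :
    ad (∑ i, a i) (∑ i, t i) = ∑ i, ad (a i) (t i) := by
  have : ad (∑ i, a i) (∑ i, t i) = ∑ i, ∑ j, ad (a i) (t j) := by
    simp only [ad, Finset.sum_mul_sum, Finset.sum_sub_distrib]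
    rw [Finset.sum_comm (f := fun i j => t i * a j)]
  rw [this]
  exact Finset.sum_congr rfl fun i _ =>
    Finset.sum_eq_single i (fun j _ hj => h i j hj.symm) (by simp)

section split

variable {ι : Type} [Fintype ι] {P : LPage K E} {Λ N' d : ι → End K E} (h : Split P Λ N' d)
include h

theorem Split.de {i j : ι} (hij : i ≠ j) :
    d i * ad (N' j) (ad (Λ j) (d j)) + ad (N' j) (ad (Λ j) (d j)) * d i = 0 := by
  obtain ⟨-, -, -, h1, h2, -⟩ := h.comm j i hij.symm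
  have := congrArg (fun t => ad (N' j) (ad (Λ j) t)) (h.comm i j hij).2.2.2.2.2
  simpa only [ad_add, ad_mul, ad0 h1, ad0 h2, ad_zero, zero_mul, mul_zero, zero_add, add_zero]
    using this

theorem Split.z : P.s2.z = ∑ i, Lap (Λ i) (N' i) (d i) := by
  have he : P.s2.e = ∑ i, ad (N' i) (ad (Λ i) (d i)) := by
    change ad P.N' (ad P.Λ P.d) = _
    rw [h.sΛ, h.sN, h.sd, ad_sum _ _ fun i j hij => ad0 (h.comm i j hij).2.2.2.1,
      ad_sum _ _ fun i j hij => ?_]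
    rw [ad_ad, ad0 (h.comm j i hij.symm).2.1.symm, ad0 (h.comm i j hij).2.2.2.2.1, zero_ad,
      ad_zero, add_zero]
  change P.d * P.s2.e + P.s2.e * P.d = _
  rw [he, h.sd, Finset.sum_mul_sum, Finset.sum_mul_sum, Finset.sum_comm (f := fun i j => _ * d j),
    ← Finset.sum_add_distrib]
  refine Finset.sum_congr rfl fun i _ => ?_
  rw [← Finset.sum_add_distrib]
  exact Finset.sum_eq_single i (fun j _ hj => h.de hj.symm) (by simp)

theorem Split.lap (i j : ι) : Commute (Lap (Λ i) (N' i) (d i)) (Lap (Λ j) (N' j) (d j)) := by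
  by_cases hij : i = j
  · subst hij; exact Commute.refl _
  obtain ⟨a1, a2, a3, a4, a5, a6⟩ := h.comm j i (Ne.symm hij)
  obtain ⟨-, b2, -⟩ := h.comm i j hij
  have c0 : ∀ T : End K E, Commute T (Λ i) → Commute T (N' i) → Commute T (d i) →
      Commute (Lap (Λ i) (N' i) (d i)) T := fun T h1 h2 h3 => by
    have h4 : Commute T ⁅Λ i, d i⁆ := (h1.mul_right h3).sub_right (h3.mul_right h1)
    have h5 : Commute T ⁅N' i, ⁅Λ i, d i⁆⁆ := (h2.mul_right h4).sub_right (h4.mul_right h2)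
    exact ((h3.mul_right h5).add_right (h5.mul_right h3)).symm
  have c1 := c0 _ a1 a2 a4
  have c2 := c0 _ b2.symm a3 a5
  have anti : ∀ a s t : End K E, a * s + s * a = 0 → a * t + t * a = 0 → Commute (s * t) a :=
    fun a s t h1 h2 => by
      have : s * t * a - a * (s * t) = s * (a * t + t * a) - (a * s + s * a) * t := by noncomm_ring
      rw [h1, h2, mul_zero, zero_mul, sub_zero, sub_eq_zero] at this
      exact this
  have c3 : Commute (Lap (Λ i) (N' i) (d i)) (d j) :=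
    (anti _ _ _ a6 (h.de (Ne.symm hij))).add_left (anti _ _ _ (h.de (Ne.symm hij)) a6)
  have c4 : Commute (Lap (Λ i) (N' i) (d i)) ⁅Λ j, d j⁆ :=
    (c1.mul_right c3).sub_right (c3.mul_right c1)
  have c5 : Commute (Lap (Λ i) (N' i) (d i)) ⁅N' j, ⁅Λ j, d j⁆⁆ :=
    (c2.mul_right c4).sub_right (c4.mul_right c2)
  exact (c3.mul_right c5).add_right (c5.mul_right c3)

end split

variable [CharZero K] [FiniteDimensional K E] [FiniteDimensional K F]

theorem transfer (P : LPage K E) (Q : Page K F) (c : ℕ) (p : E →ₗ[K] F) (q : F →ₗ[K] E)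
    (h : Lefs P Q c p q) (H : ∀ x (k : ℕ), (P.s2.z ^ k) x = 0 → P.d x = 0) : Q.WM := by
  obtain ⟨⟨pd, pN, pX, pY⟩, ⟨qd, qN, qX, qY⟩, proj, surj, inj⟩ := h
  obtain ⟨G⟩ := exists_grad P.Y P.gr
  obtain ⟨G'⟩ := exists_grad Q.Y Q.gr
  have wE : ∀ {m n : ℤ} {x : E}, P.Y x = (m : K) • x → n = m + 1 →
      P.Y (P.d x) = (n : K) • P.d x := fun hx hn => hn ▸ P.s2.wd hx
  have wF : ∀ {m n : ℤ} {y : F}, Q.Y y = (m : K) • y → n = m + 1 →
      Q.Y (Q.d y) = (n : K) • Q.d y := fun hy hn => by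
    rw [Q.Yd, hy, map_smul, hn]; push_cast; module
  have wT : ∀ {V : Type} [AddCommGroup V] [Module K V] {Y T : End K V}, Commute Y T →
      ∀ {a : K} {x : V}, Y x = a • x → Y (T x) = a • T x := fun hc a x hx => by
    rw [← End.mul_apply, hc.eq, End.mul_apply, hx, map_smul]
  have wS : ∀ {V : Type} [AddCommGroup V] [Module K V] {Y : End K V} {a : K} {x y : V},
      Y x = a • x → Y y = a • y → Y (x - y) = a • (x - y) := fun hx hy => by
    rw [map_sub, hx, hy, smul_sub]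
  have wX : ∀ {V : Type} [AddCommGroup V] [Module K V] {Y T : End K V}, Commute Y T →
      ∀ (b : K) {a : K} {x : V}, Y x = a • x → Y (T x - b • x) = a • (T x - b • x) :=
    fun hc b a x hx => wS (wT hc hx) (by rw [map_smul, hx, smul_comm])
  have cE : Commute P.Y P.X := (ad_commute P.s2.XY).symm
  have cF : Commute Q.Y Q.X := (ad_commute (Q.comm Q.YN.symm Q.YN'.symm)).symm
  have πd : ∀ k y, G'.π k (Q.d y) = Q.d (G'.π (k - 1) y) :=
    G'.comm' Q.d 1 fun x => by simpa using Q.Yd x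
  have πT : ∀ {T : End K F}, Commute Q.Y T → ∀ k y, G'.π k (T y) = T (G'.π k y) := fun hT =>
    G'.comm0 _ fun x => LinearMap.congr_fun hT.eq x
  have Linj : ∀ (m : ℤ) x, P.Y x = (m : K) • x → m + c ≤ 0 → (P.L ^ c) x = 0 → x = 0 :=
    fun m x hx hm => P.s2.bas_inj m c x hx hm
  have pinj : ∀ (m : ℤ) x, P.Y x = (m : K) • x → m + c ≤ 0 → p x = 0 → x = 0 :=
    fun m x hx hm h0 => Linj m x hx hm (by rw [← proj, h0, map_zero])
  have psur : ∀ m : ℤ, m < 0 → ∀ y, Q.Y y = (m : K) • y →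
      ∃ x, P.Y x = ((m - c : ℤ) : K) • x ∧ p x = y := fun m hm y hy => by
    obtain ⟨x, rfl⟩ := surj m hm y hy
    refine ⟨G.π (m - c) x, G.wt _ _, ?_⟩
    rw [← G.comm2 G' p c (fun x => by simpa using pY x), sub_add_cancel, G'.same _ _ hy]
  have bdE : ∀ (m : ℤ) x, P.Y x = (m : K) • x → x ∈ LinearMap.range P.d →
      ∃ s, P.Y s = ((m - 1 : ℤ) : K) • s ∧ P.d s = x := by
    rintro m _ hx ⟨s, rfl⟩
    exact ⟨G.π (m - 1) s, G.wt _ _, (P.s2.πd G m s).symm.trans (G.same _ _ hx)⟩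
  have bdF : ∀ (m : ℤ) y, Q.Y y = (m : K) • y → y ∈ LinearMap.range Q.d →
      ∃ s, Q.Y s = ((m - 1 : ℤ) : K) • s ∧ Q.d s = y := by
    rintro m _ hx ⟨s, rfl⟩
    exact ⟨G'.π (m - 1) s, G'.wt _ _, (πd m s).symm.trans (G'.same _ _ hx)⟩
  have mI : ∀ {m : ℤ} {j : ℕ} {x : E}, x ∈ P.s2.I m j ↔ ∃ w ∈ LinearMap.range P.d,
      P.Y w = ((m - 2 * j : ℤ) : K) • w ∧ (P.L ^ j) w = x := P.s2.mem_I
  have M1 : ∀ (m : ℤ) (j : ℕ), j = 0 ∨ j ≤ m → ∀ (r : ℕ) x, P.d x = 0 → P.Y x = (m : K) • x →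
      P.X x = (-(r : K)) • x → (P.N ^ r) x ∈ P.s2.I m j → x ∈ P.s2.I m j :=
    fun m j hj r => (P.s2.mlem H m j hj r).1
  have M2 : ∀ (m : ℤ) (j : ℕ), j = 0 ∨ j ≤ m → ∀ (r : ℕ) y, P.d y = 0 → P.Y y = (m : K) • y →
      P.X y = (r : K) • y → ∃ x, P.d x = 0 ∧ P.Y x = (m : K) • x ∧ P.X x = (-(r : K)) • x ∧
        (P.N ^ r) x - y ∈ P.s2.I m j := fun m j hj r => (P.s2.mlem H m j hj r).2
  have Lsur : ∀ m : ℤ, c ≤ m → ∀ x, P.Y x = (m : K) • x →
      ∃ u, P.Y u = ((m - 2 * c : ℤ) : K) • u ∧ (P.L ^ c) u = x := fun m hm x hx => by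
    obtain ⟨u, -, h⟩ := P.s2.sur ⊤ (by simp) (by simp) _ c (Or.inr hm) x trivial hx
    exact ⟨u, h⟩
  have qsur : ∀ m : ℤ, 0 ≤ m → ∀ x, P.Y x = ((m + c : ℤ) : K) • x →
      ∃ y, Q.Y y = (m : K) • y ∧ q y = x := fun m hm x hx => by
    obtain ⟨u, h1, h2⟩ := Lsur _ (by omega) x hx
    exact ⟨p u, pY.wt h1 (by ring), (proj u).trans h2⟩
  have I0 : ∀ (m : ℤ) x, P.Y x = (m : K) • x → x ∈ LinearMap.range P.d → x ∈ P.s2.I m 0 :=
    fun m x hx h1 => mI.2 ⟨x, h1, by simpa using hx, rfl⟩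
  have I1 : ∀ (m : ℤ) x, x ∈ P.s2.I m 0 → x ∈ LinearMap.range P.d := fun m x hx => by
    obtain ⟨w, h1, -, rfl⟩ := mI.1 hx
    exact h1
  have LX : ∀ (a : K) w, P.Y w = ((c - 2 * c : ℤ) : K) • w → P.X ((P.L ^ c) w) = a • (P.L ^ c) w →
      P.X w = a • w := fun a w hw hx => by
    refine sub_eq_zero.1 (Linj _ _ (wX cE a hw) (by omega) ?_)
    rw [map_sub, map_smul, ← hx, sub_eq_zero]
    exact pow_app0 (ad_symm P.s2.XL) c w
  intro r
  have NE := P.YN.pow_right r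
  have NF := Q.YN.pow_right r
  have key1 : ∀ (m : ℤ) x, Q.Y x = (m : K) • x → Q.d x = 0 → Q.X x = -(r : K) • x →
      (Q.N ^ r) x ∈ LinearMap.range Q.d → x ∈ LinearMap.range Q.d := by
    intro m x hy hd hx hN
    obtain ⟨y, hy1, hy2⟩ := bdF m _ (wT NF hy) hN
    rcases lt_trichotomy m 0 with hm | rfl | hm
    · obtain ⟨a, ha, rfl⟩ := psur m hm x hy
      obtain ⟨t, ht, rfl⟩ := psur _ (by omega) y hy1
      have h1 : (P.N ^ r) a = P.d t := sub_eq_zero.1 (pinj _ _ (wS (wT NE ha) (wE ht (by ring)))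
        (by omega) (by rw [map_sub, ← pN.pow, ← pd.zero, hy2, sub_self]))
      obtain ⟨s, rfl⟩ := I1 _ _ (M1 (m - c) 0 (Or.inl rfl) r a
        (pinj _ _ (wE ha rfl) (by omega) (by rw [← pd.zero, hd])) ha
        (sub_eq_zero.1 (pinj _ _ (wX cE _ ha) (by omega)
          (by rw [map_sub, ← pX.zero, hx, map_smul, sub_self])))
        (I0 _ _ (wT NE ha) ⟨t, h1.symm⟩))
      exact ⟨p s, pd.zero s⟩
    · obtain ⟨t, ht, rfl⟩ := psur _ (by omega) y hy1
      have h0 : P.X (q x) = -(r : K) • q x := by rw [qX.zero, hx, map_smul]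
      have ht' : P.Y (P.d t) = ((c - 2 * c : ℤ) : K) • P.d t := wE ht (by ring)
      have h1 : (P.L ^ c) (P.d t) = (P.N ^ r) (q x) := by
        rw [qN.pow, ← hy2, pd.zero, proj]
      obtain ⟨_, ⟨s, rfl⟩, hs, h2⟩ := mI.1 (M1 c c (Or.inr le_rfl) r (q x)
        (by rw [qd.zero, hd, map_zero]) (qY.wt hy (by ring)) h0
        (mI.2 ⟨_, ⟨t, rfl⟩, ht', h1⟩))
      have h3 : P.d t = (P.N ^ r) (P.d s) := sub_eq_zero.1 (Linj _ _ (wS ht' (wT NE hs)) (by omega)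
        (by rw [map_sub, h1, ← h2, ← End.mul_apply, (P.NL.pow_pow r c).eq, End.mul_apply,
          sub_self]))
      have h4 := LX _ _ hs (h2 ▸ h0)
      have h5 := Q.s1.bas_inj (-r) r (x - p (P.d s))
        (show Q.X _ = _ by rw [wS hx (by rw [pX.zero, h4, map_smul])]; simp) (by omega)
        (show (Q.N ^ r) _ = 0 by rw [map_sub, ← hy2, pN.pow, pd.zero, h3, sub_self])
      exact ⟨p s, by rw [pd.zero, sub_eq_zero.1 h5]⟩
    · have hq := qY.wt hy (n := m + c) rfl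
      obtain ⟨s, hs, h1⟩ := bdE _ _ hq (I1 _ _ (M1 (m + c) 0 (Or.inl rfl) r (q x)
        (by rw [qd.zero, hd, map_zero]) hq
        (by rw [qX.zero, hx, map_smul])
        (I0 _ _ (wT NE hq) ⟨q y, by rw [qd.zero, hy2, ← qN.pow]⟩)))
      obtain ⟨t, ht, rfl⟩ := qsur (m - 1) (by omega) s (by rw [hs]; congr 2; ring)
      exact ⟨t, sub_eq_zero.1 (inj m hm _ (wS (wF ht (by ring)) hy)
        (by rw [map_sub, ← qd.zero, h1, sub_self]))⟩
  have key2 : ∀ (m : ℤ) y, Q.Y y = (m : K) • y → Q.d y = 0 → Q.X y = (r : K) • y →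
      ∃ x, Q.d x = 0 ∧ Q.X x = -(r : K) • x ∧ (Q.N ^ r) x - y ∈ LinearMap.range Q.d := by
    intro m y hy hd hx
    rcases lt_trichotomy m 0 with hm | rfl | hm
    · obtain ⟨a, ha, rfl⟩ := psur m hm y hy
      obtain ⟨a', h1, -, h2, h3⟩ := M2 (m - c) 0 (Or.inl rfl) r a
        (pinj _ _ (wE ha rfl) (by omega) (by rw [← pd.zero, hd])) ha
        (sub_eq_zero.1 (pinj _ _ (wX cE _ ha) (by omega)
          (by rw [map_sub, ← pX.zero, hx, map_smul, sub_self])))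
      obtain ⟨s, hs⟩ := I1 _ _ h3
      exact ⟨p a', by rw [pd.zero, h1, map_zero], by rw [pX.zero, h2, map_smul],
        p s, by rw [pd.zero, hs, pN.pow, map_sub]⟩
    · have h0 : P.X (q y) = (r : K) • q y := by rw [qX.zero, hx, map_smul]
      obtain ⟨a, h1, h2, h3, h4⟩ := M2 c c (Or.inr le_rfl) r (q y)
        (by rw [qd.zero, hd, map_zero]) (qY.wt hy (by ring)) h0
      obtain ⟨a', ha, rfl⟩ := Lsur _ le_rfl a h2
      obtain ⟨_, ⟨s, rfl⟩, hs, h5⟩ := mI.1 h4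
      have h6 := LX _ _ ha h3
      have h7 : ∀ {V : Type} [AddCommGroup V] [Module K V] (R : Page K V) (u : V),
          R.X u = -(r : K) • u → R.X ((R.N ^ r) u) = (r : K) • (R.N ^ r) u := fun R u hu => by
        have := R.s1.wLp (m := -r) (show R.X u = _ by rw [hu]; simp) r
        rw [show R.X ((R.N ^ r) u) = _ from this]; congr 1; push_cast; ring
      have h8 := LX r _ hs (by rw [h5]; exact wS (h7 _ _ h3) h0)
      have hpa : Q.Y (p a') = ((0 : ℤ) : K) • p a' := pY.wt ha (by ring)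
      have hpx : Q.X (p a') = -(r : K) • p a' := by rw [pX.zero, h6, map_smul]
      obtain ⟨u, hu, h9, h10⟩ := Q.s1.bas_surj (Q.Y.eigenspace ((0 : ℤ) : K))
        (fun x hx => End.mem_eigenspace_iff.2 (wT Q.YN (End.mem_eigenspace_iff.1 hx)))
        (fun x hx => End.mem_eigenspace_iff.2 (wT Q.YN' (End.mem_eigenspace_iff.1 hx))) r
        ((Q.N ^ r) (p a') - y - p (P.d s))
        (End.mem_eigenspace_iff.2 (wS (wS (wT NF hpa) hy) (pY.wt hs (by ring))))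
        (wS (wS (h7 _ _ hpx) hx) (show Q.X _ = _ by rw [pX.zero, h8, map_smul]))
      change Q.X u = _ at h9
      change (Q.N ^ r) u = _ at h10
      have h11 : q u = 0 := P.s1.bas_inj (-r) r (q u)
        (show P.X _ = _ by rw [qX.zero, h9, map_smul]; simp) (by omega)
        (show (P.N ^ r) _ = 0 by
          rw [qN.pow, h10, map_sub, map_sub, ← qN.pow, proj, proj, h5, sub_self])
      refine ⟨p a' - u, inj 1 one_pos _ (wF (wS hpa (End.mem_eigenspace_iff.1 hu)) (by ring)) ?_,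
        wS hpx h9, p s, by rw [pd.zero, map_sub, h10]; abel⟩
      rw [← qd.zero, map_sub, proj, h11, sub_zero]
      exact h1
    · have hq := qY.wt hy (n := m + c) rfl
      obtain ⟨a, h1, h2, h3, h4⟩ := M2 (m + c) 0 (Or.inl rfl) r (q y)
        (by rw [qd.zero, hd, map_zero]) hq
        (by rw [qX.zero, hx, map_smul])
      obtain ⟨s, hs, h5⟩ := bdE _ _ (wS (wT NE h2) hq) (I1 _ _ h4)
      obtain ⟨a', ha, rfl⟩ := qsur m (by omega) a h2
      obtain ⟨t, ht, rfl⟩ := qsur (m - 1) (by omega) s (by rw [hs]; congr 2; ring)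
      refine ⟨a', inj (m + 1) (by omega) _ (wF ha rfl) (by rw [← qd.zero]; exact h1),
        sub_eq_zero.1 (inj m hm _ (wX cF _ ha) ?_), t,
        sub_eq_zero.1 (inj m hm _ (wS (wF ht (by ring)) (wS (wT NF ha) hy)) ?_)⟩
      · rw [map_sub, ← qX.zero, h3, map_smul, sub_self]
      · rw [map_sub, ← qd.zero, h5, map_sub, qN.pow, sub_self]
  have πc : ∀ k x, Q.d x = 0 → Q.d (G'.π k x) = 0 := fun k x hx => by
    have := πd (k + 1) x
    rw [hx, map_zero, add_sub_cancel_right] at this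
    exact this.symm
  have πx : ∀ k (a : K) x, x ∈ Q.X.eigenspace a → G'.π k x ∈ Q.X.eigenspace a := fun k a x hx =>
    End.mem_eigenspace_iff.2 (by rw [← πT cF, End.mem_eigenspace_iff.1 hx, map_smul])
  constructor
  · intro x hd hx hN
    refine G'.ind (LinearMap.ker Q.d ⊓ Q.X.eigenspace (-(r : K)) ⊓
      (LinearMap.range Q.d).comap (Q.N ^ r)) _ (fun k x hx => ⟨⟨πc k x hx.1.1, πx k _ x hx.1.2⟩, ?_⟩)
      (fun k x hx hk => key1 k x hk hx.1.1 (End.mem_eigenspace_iff.1 hx.1.2) hx.2)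
      ⟨⟨hd, End.mem_eigenspace_iff.2 hx⟩, hN⟩
    obtain ⟨y, hy⟩ := hx.2
    exact ⟨G'.π (k - 1) y, by rw [← πd, hy, πT NF]⟩
  · intro y hd hx
    have := G'.ind (LinearMap.ker Q.d ⊓ Q.X.eigenspace (r : K))
      ((LinearMap.ker Q.d ⊓ Q.X.eigenspace (-(r : K))).map (Q.N ^ r) ⊔ LinearMap.range Q.d)
      (fun k x hx => ⟨πc k x hx.1, πx k _ x hx.2⟩) (fun k y hy hk => by
        obtain ⟨x, h1, h2, h3⟩ := key2 k y hk hy.1 (End.mem_eigenspace_iff.1 hy.2)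
        exact Submodule.mem_sup.2 ⟨_, ⟨x, ⟨h1, End.mem_eigenspace_iff.2 h2⟩, rfl⟩, _,
          Submodule.neg_mem _ h3, by abel⟩)
      (Submodule.mem_inf.2 ⟨hd, End.mem_eigenspace_iff.2 hx⟩ : y ∈ _)
    obtain ⟨_, ⟨x, h1, rfl⟩, w, hw, rfl⟩ := Submodule.mem_sup.1 this
    exact ⟨x, h1.1, End.mem_eigenspace_iff.1 h1.2, by simpa using hw⟩

theorem main [IsAlgClosed K] (P : LPage K E) (Q : Page K F) (ι : Type) [Fintype ι]
    (Λ N' d : ι → End K E) (hP : Split P Λ N' d)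
    (hS : ∀ i x (k : ℕ), (Lap (Λ i) (N' i) (d i) ^ k) x = 0 → d i x = 0)
    (hC : ∀ μ : ι → K, (∀ i, (Lap (Λ i) (N' i) (d i)).HasEigenvalue (μ i)) → ∑ i, μ i = 0 →
      ∀ i, μ i = 0)
    (c : ℕ) (p : E →ₗ[K] F) (q : F →ₗ[K] E) (h : Lefs P Q c p q) : Q.WM := by
  refine transfer P Q c p q h fun x k hx => ?_
  rw [hP.z] at hx
  rw [hP.sd, LinearMap.sum_apply]
  refine Finset.sum_eq_zero fun i _ => ?_
  obtain ⟨n, hn⟩ := ker_sum _ hP.lap hC k x hx i
  exact hS i x n hn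

end Pool.Agent.P.MP_cd312e_ag.CI
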