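import Mathlib

/-!
Linear algebra data of the first page of the Rapoport-Zink weight spectral sequence of a
projective strictly semistable scheme of relative dimension `n`.

`H a` stands for the total cohomology of the disjoint union of the `(a+1)`-fold intersections of
components of the special fibre (dimension `n - a`), `L` is the cup product with a relatively ample
class, `h` is the degree operator (`m - (n - a)` in degree `m`), `Λ` completes the sl2-triple
given by hard Lefschetz on the strata, `ρ` and `γ` are the alternating sums of restriction and of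
Gysin maps, `Φ` is an operator commuting with everything (Frobenius divided by `q ^ (m / 2)` in
degree `m`). A chain `x` has components `x a j` in `H a`, `0 ≤ j ≤ a`, where `j` is the Tate twist;
the component `(a, j)` sits in the column `a - 2 j`, and the `h`-weight is the total degree
minus `n`.
-/

namespace Pool.Agent.P.MP_cd312e_ag

open Module

/-- The Lefschetz sl2-triples on the strata. -/
structure Lef (K : Type) [Field K] (H : ℕ → Type) [∀ a, AddCommGroup (H a)]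
    [∀ a, Module K (H a)] where
  L : ∀ a, End K (H a)
  Λ : ∀ a, End K (H a)
  h : ∀ a, End K (H a)
  fin : ∃ n, ∀ a, n < a → ∀ x : H a, x = 0
  gr : ∀ a, ⨆ k : ℤ, (h a).eigenspace (k : K) = ⊤
  LΛ : ∀ a x, L a (Λ a x) - Λ a (L a x) = h a x
  hL : ∀ a x, h a (L a x) - L a (h a x) = (2 : K) • L a x
  hΛ : ∀ a x, h a (Λ a x) - Λ a (h a x) = (-2 : K) • Λ a x

/-- The restriction and Gysin maps. -/
structure Cech (K : Type) [Field K] (H : ℕ → Type) [∀ a, AddCommGroup (H a)]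
    [∀ a, Module K (H a)] extends Lef K H where
  ρ : ∀ a, H a →ₗ[K] H (a + 1)
  γ : ∀ a, H (a + 1) →ₗ[K] H a
  Lρ : ∀ a x, L (a + 1) (ρ a x) = ρ a (L a x)
  Lγ : ∀ a x, L a (γ a x) = γ a (L (a + 1) x)
  hρ : ∀ a x, h (a + 1) (ρ a x) - ρ a (h a x) = ρ a x
  hγ : ∀ a x, h a (γ a x) - γ a (h (a + 1) x) = γ a x
  ρρ : ∀ a x, ρ (a + 1) (ρ a x) = 0
  γγ : ∀ a x, γ a (γ (a + 1) x) = 0
  ργ : ∀ a x, ρ a (γ a x) + γ (a + 1) (ρ (a + 1) x) = 0

/-- The data of the first page. -/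
structure RZ (K : Type) [Field K] (H : ℕ → Type) [∀ a, AddCommGroup (H a)]
    [∀ a, Module K (H a)] extends Cech K H where
  Φ : ∀ a, End K (H a)
  ΦL : ∀ a x, Φ a (L a x) = L a (Φ a x)
  ΦΛ : ∀ a x, Φ a (Λ a x) = Λ a (Φ a x)
  Φρ : ∀ a x, Φ (a + 1) (ρ a x) = ρ a (Φ a x)
  Φγ : ∀ a x, Φ a (γ a x) = γ a (Φ (a + 1) x)

namespace RZ

variable {K : Type} [Field K] {H : ℕ → Type} [∀ a, AddCommGroup (H a)] [∀ a, Module K (H a)]
  (R : RZ K H)

/-- Chains of the `α`-part of the first page. -/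
def Ch (α : K) (x : ∀ a, ℕ → H a) : Prop :=
  (∀ a j, a < j → x a j = 0) ∧ ∀ a j, x a j ∈ (R.Φ a).maxGenEigenspace α

/-- The differential `ρ + γ`. -/
def d (x : ∀ a, ℕ → H a) : ∀ a, ℕ → H a
  | 0, j => R.γ 0 (x 1 (j + 1))
  | a + 1, j => R.ρ a (x a j) + R.γ (a + 1) (x (a + 2) (j + 1))

/-- Boundaries of the `α`-part. -/
def Ex (α : K) (x : ∀ a, ℕ → H a) : Prop := ∃ w, R.Ch α w ∧ R.d w = x

/-- Cycles of the `α`-part of `h`-weight `m`. -/
def Cyc (α : K) (m : ℤ) (x : ∀ a, ℕ → H a) : Prop :=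
  R.Ch α x ∧ R.d x = 0 ∧ ∀ a j, R.h a (x a j) = (m : K) • x a j

/-- Hard Lefschetz on the `α`-part of the second page. -/
def HL (α : K) : Prop := ∀ k : ℕ,
  (∀ x, R.Cyc α (-k) x → R.Ex α (fun a j => (R.L a ^ k) (x a j)) → R.Ex α x) ∧
  ∀ y, R.Cyc α k y → ∃ x, R.Cyc α (-k) x ∧ R.Ex α (fun a j => (R.L a ^ k) (x a j) - y a j)

/-- Cycles in the column `p`, of `h`-weight `-b`, whose class is primitive. -/
def Prim (α : K) (p : ℤ) (b : ℕ) (x : ∀ a, ℕ → H a) : Prop :=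
  R.Cyc α (-b) x ∧ (∀ a j : ℕ, (a : ℤ) - 2 * j ≠ p → x a j = 0) ∧
    R.Ex α (fun a j => (R.L a ^ (b + 1)) (x a j))

/-- The monodromy `N ^ r`, the shift of the twist by `r`, is a bijection from the column `-r` to the
column `r` on the primitive `α`-part of weight `-b` of the second page. -/
def WM (α : K) (b : ℕ) : Prop := ∀ r : ℕ,
  (∀ x, R.Prim α (-r) b x → R.Ex α (fun a j => x a (j + r)) → R.Ex α x) ∧
  ∀ y, R.Prim α r b y → ∃ x, R.Prim α (-r) b x ∧ R.Ex α (fun a j => x a (j + r) - y a j)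

/-- The Laplacian on `H (a + 1)`. -/
def Lap (a : ℕ) : End K (H (a + 1)) :=
  ((a : K) + 3) • (R.γ (a + 1) ∘ₗ R.Λ (a + 2) ∘ₗ R.ρ (a + 1)) -
    ((a : K) + 1) • (R.ρ a ∘ₗ R.Λ a ∘ₗ R.γ a) -
    ((a : K) + 2) • (R.Λ (a + 1) ∘ₗ R.γ (a + 1) ∘ₗ R.ρ (a + 1))

/-- The primitive `α`-part of `h`-weight `m` of `H a`. -/
def Pr (α : K) (a : ℕ) (m : ℤ) : Submodule K (H a) :=
  (R.Φ a).maxGenEigenspace α ⊓ LinearMap.ker (R.Λ a) ⊓ (R.h a).eigenspace (m : K)

/-- On the primitive `α`-part of weight `m` of `H (a + 1)`: multiplicity at most one, or the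
Laplacian and its square have the same kernel. -/
def SS (α : K) (a : ℕ) (m : ℤ) : Prop :=
  finrank K (R.Pr α (a + 1) m) ≤ 1 ∨
    ∀ x ∈ R.Pr α (a + 1) m, R.Lap a (R.Lap a x) = 0 → R.Lap a x = 0

end RZ

end Pool.Agent.P.MP_cd312e_ag
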