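import Pool.Agent.P.MP_cd312e_ag.Abs
import Pool.Agent.P.MP_cd312e_ag.Defs

/-!
The first page as a module over two commuting sl2-triples.
-/

set_option linter.unusedSectionVars false

namespace Pool.Agent.P.MP_cd312e_ag

open Module RZW

namespace RZ

variable {K : Type} [Field K] {H : ℕ → Type} [∀ a, AddCommGroup (H a)] [∀ a, Module K (H a)]
  (R : RZ K H)

theorem mge_map {U V : Type} [AddCommGroup U] [Module K U] [AddCommGroup V] [Module K V]
    (f : End K U) (g : End K V) (T : U →ₗ[K] V) (hT : ∀ x, g (T x) = T (f x)) (α : K) {x : U}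
    (hx : x ∈ f.maxGenEigenspace α) : T x ∈ g.maxGenEigenspace α := by
  rw [End.mem_maxGenEigenspace] at hx ⊢
  obtain ⟨k, hk⟩ := hx
  refine ⟨k, ?_⟩
  have : ∀ (k : ℕ) x, ((g - α • 1) ^ k) (T x) = T (((f - α • 1) ^ k) x) := by
    intro k
    induction k with
    | zero => simp
    | succ k ih => intro x; rw [pow_succ', pow_succ', End.mul_apply, End.mul_apply, ih]; simp [hT]
  rw [this, hk, map_zero]

theorem Φh (a : ℕ) (x : H a) : R.Φ a (R.h a x) = R.h a (R.Φ a x) := by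
  rw [← R.LΛ, ← R.LΛ, map_sub, R.ΦL, R.ΦΛ, R.ΦΛ, R.ΦL]

/-- The `α`-part of the first page. -/
def Part (α : K) : Submodule K (∀ a, ℕ → H a) where
  carrier := {x | R.Ch α x}
  add_mem' := fun {x y} hx hy => ⟨fun a j h => by simp [hx.1 a j h, hy.1 a j h],
    fun a j => Submodule.add_mem _ (hx.2 a j) (hy.2 a j)⟩
  zero_mem' := ⟨fun _ _ _ => rfl, fun _ _ => Submodule.zero_mem _⟩
  smul_mem' := fun c x hx => ⟨fun a j h => by simp [hx.1 a j h],
    fun a j => Submodule.smul_mem _ c (hx.2 a j)⟩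

theorem mem_Part {α : K} {x : ∀ a, ℕ → H a} : x ∈ R.Part α ↔ R.Ch α x := Iff.rfl

theorem fd [∀ a, FiniteDimensional K (H a)] (α : K) : FiniteDimensional K (R.Part α) := by
  obtain ⟨n, hn⟩ := R.fin
  let f : R.Part α →ₗ[K] (∀ a : Fin (n + 1), Fin (n + 1) → H a) :=
    { toFun := fun x a j => x.1 a j
      map_add' := fun _ _ => rfl
      map_smul' := fun _ _ => rfl }
  refine FiniteDimensional.of_injective f ((injective_iff_map_eq_zero f).2 fun x hx => ?_)
  ext a j
  by_cases ha : n < a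
  · exact hn a ha _
  · by_cases hj : a < j
    · exact x.2.1 a j hj
    · exact congrFun (congrFun hx ⟨a, by omega⟩) ⟨j, by omega⟩

/-- Componentwise operators. -/
def cw (α : K) (T : ∀ a, ℕ → End K (H a)) (hT : ∀ a j x, R.Φ a (T a j x) = T a j (R.Φ a x)) :
    End K (R.Part α) where
  toFun x := ⟨fun a j => T a j (x.1 a j), fun a j h => by simp [x.2.1 a j h],
    fun a j => mge_map _ _ _ (hT a j) α (x.2.2 a j)⟩
  map_add' x y := by ext a j; simp
  map_smul' c x := by ext a j; simp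

@[simp] theorem cw_app (α : K) (T : ∀ a, ℕ → End K (H a)) (hT) (x : R.Part α) (a j : ℕ) :
    (R.cw α T hT x).1 a j = T a j (x.1 a j) := rfl

/-- Scalar operators. -/
def sc (α : K) (c : ℕ → ℕ → K) : End K (R.Part α) :=
  R.cw α (fun a j => c a j • 1) (by simp)

@[simp] theorem sc_app (α : K) (c : ℕ → ℕ → K) (x : R.Part α) (a j : ℕ) :
    (R.sc α c x).1 a j = c a j • x.1 a j := rfl

def LE (α : K) : End K (R.Part α) := R.cw α (fun a _ => R.L a) fun a _ => R.ΦL a
def ΛE (α : K) : End K (R.Part α) := R.cw α (fun a _ => R.Λ a) fun a _ => R.ΦΛ a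
def YE (α : K) : End K (R.Part α) := R.cw α (fun a _ => R.h a) fun a _ => R.Φh a

@[simp] theorem LE_app (α : K) (x : R.Part α) (a j : ℕ) : (R.LE α x).1 a j = R.L a (x.1 a j) := rfl
@[simp] theorem ΛE_app (α : K) (x : R.Part α) (a j : ℕ) : (R.ΛE α x).1 a j = R.Λ a (x.1 a j) := rfl
@[simp] theorem YE_app (α : K) (x : R.Part α) (a j : ℕ) : (R.YE α x).1 a j = R.h a (x.1 a j) := rfl

theorem d_zero (x : ∀ a, ℕ → H a) (j : ℕ) : R.d x 0 j = R.γ 0 (x 1 (j + 1)) := rfl
theorem d_succ (x : ∀ a, ℕ → H a) (a j : ℕ) :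
    R.d x (a + 1) j = R.ρ a (x a j) + R.γ (a + 1) (x (a + 2) (j + 1)) := rfl

def dE (α : K) : End K (R.Part α) where
  toFun x := ⟨R.d x.1, fun a j h => by
      rcases a with _ | a
      · rw [d_zero, x.2.1 1 _ (by omega), map_zero]
      · rw [d_succ, x.2.1 a _ (by omega), x.2.1 (a + 2) _ (by omega)]; simp,
    fun a j => by
      rcases a with _ | a
      · exact mge_map _ _ _ (R.Φγ 0) α (x.2.2 _ _)
      · exact Submodule.add_mem _ (mge_map _ _ _ (R.Φρ a) α (x.2.2 _ _))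
          (mge_map _ _ _ (R.Φγ (a + 1)) α (x.2.2 _ _))⟩
  map_add' x y := by
    ext a j
    rcases a with _ | a
    · simp [d_zero]
    · simp only [Submodule.coe_add, d_succ, Pi.add_apply, map_add]; abel
  map_smul' c x := by
    ext a j
    rcases a with _ | a <;> simp [d_zero, d_succ]

theorem dE_val (α : K) (x : R.Part α) : (R.dE α x).1 = R.d x.1 := rfl
@[simp] theorem dE_zero (α : K) (x : R.Part α) (j : ℕ) :
    (R.dE α x).1 0 j = R.γ 0 (x.1 1 (j + 1)) := rfl
@[simp] theorem dE_succ (α : K) (x : R.Part α) (a j : ℕ) :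
    (R.dE α x).1 (a + 1) j = R.ρ a (x.1 a j) + R.γ (a + 1) (x.1 (a + 2) (j + 1)) := rfl

def NE (α : K) : End K (R.Part α) where
  toFun x := ⟨fun a j => x.1 a (j + 1), fun a j h => x.2.1 a _ (by omega), fun a j => x.2.2 a _⟩
  map_add' _ _ := rfl
  map_smul' _ _ := rfl

@[simp] theorem NE_app (α : K) (x : R.Part α) (a j : ℕ) : (R.NE α x).1 a j = x.1 a (j + 1) := rfl

/-- The lowering operator on chains. -/
def low (x : ∀ a, ℕ → H a) (a : ℕ) : ℕ → H a
  | 0 => 0
  | j + 1 => (((a : K) - j) * (j + 1)) • x a j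

def N'E (α : K) : End K (R.Part α) where
  toFun x := ⟨low (K := K) x.1, fun a j h => by
      rcases j with _ | j
      · rfl
      · change (((a : K) - j) * (j + 1)) • x.1 a j = 0
        rcases eq_or_ne a j with rfl | hne
        · simp
        · rw [x.2.1 a j (by omega), smul_zero],
    fun a j => by
      rcases j with _ | j
      · exact Submodule.zero_mem _
      · exact Submodule.smul_mem _ _ (x.2.2 a j)⟩
  map_add' x y := by
    ext a j
    rcases j with _ | j <;> simp [low]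
  map_smul' c x := by
    ext a j
    rcases j with _ | j
    · simp [low]
    · simp only [low, SetLike.val_smul, Pi.smul_apply, RingHom.id_apply]; rw [smul_comm]

@[simp] theorem N'E_zero (α : K) (x : R.Part α) (a : ℕ) : (R.N'E α x).1 a 0 = 0 := rfl
@[simp] theorem N'E_succ (α : K) (x : R.Part α) (a j : ℕ) :
    (R.N'E α x).1 a (j + 1) = (((a : K) - j) * (j + 1)) • x.1 a j := rfl

def XE (α : K) : End K (R.Part α) := R.sc α fun a j => (a : K) - 2 * j
def σE (α : K) (i : ℕ) : End K (R.Part α) := R.sc α fun a _ => if a = i then 1 else 0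

@[simp] theorem XE_app (α : K) (x : R.Part α) (a j : ℕ) :
    (R.XE α x).1 a j = ((a : K) - 2 * j) • x.1 a j := rfl
theorem σE_app (α : K) (i : ℕ) (x : R.Part α) (a j : ℕ) :
    (R.σE α i x).1 a j = (if a = i then (1 : K) else 0) • x.1 a j := rfl

theorem ad_val {α : K} (S T : End K (R.Part α)) (x : R.Part α) (a j : ℕ) :
    (ad S T x).1 a j = (S (T x)).1 a j - (T (S x)).1 a j := rfl

variable [CharZero K] [∀ a, FiniteDimensional K (H a)]

theorem gYE (α : K) : ⨆ k : ℤ, (R.YE α).eigenspace (k : K) = ⊤ := by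
  obtain ⟨n, hn⟩ := R.fin
  have G : ∀ a, Grad (R.h a) := fun a => (exists_grad (R.h a) (R.gr a)).some
  let M : ℕ := ∑ a ∈ Finset.range (n + 1), (G a).M
  let p : ℤ → End K (R.Part α) := fun k => R.cw α (fun a _ => (G a).π k)
    fun a _ x => ((G a).comm0 (R.Φ a) (fun x => (R.Φh a x).symm) k x).symm
  rw [eq_top_iff]
  intro x _
  have hx : x = ∑ k ∈ Finset.Icc (-(M : ℤ)) M, p k x := by
    ext a j
    rw [AddSubmonoidClass.coe_finsetSum, Finset.sum_apply, Finset.sum_apply]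
    by_cases ha : n < a
    · rw [hn a ha (x.1 a j), hn a ha (Finset.sum _ _)]
    · have hM : (G a).M ≤ M := Finset.single_le_sum (f := fun a => (G a).M)
        (fun _ _ => Nat.zero_le _) (Finset.mem_range.2 (by omega))
      conv_lhs => rw [← (G a).sum (x.1 a j)]
      refine Finset.sum_subset (Finset.Icc_subset_Icc (by omega) (by omega)) fun k _ hk => ?_
      refine (G a).bd k _ ((G a).wt k _) ?_
      rw [Finset.mem_Icc] at hk
      rw [lt_abs]; omega
  rw [hx]
  refine Submodule.sum_mem _ fun k _ => Submodule.mem_iSup_of_mem k (End.mem_eigenspace_iff.2 ?_)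
  ext a j
  exact (G a).wt k _

theorem gXE (α : K) : ⨆ k : ℤ, (R.XE α).eigenspace (k : K) = ⊤ := by
  obtain ⟨n, hn⟩ := R.fin
  let p : ℤ → End K (R.Part α) := fun k => R.sc α fun a j => if (a : ℤ) - 2 * j = k then 1 else 0
  rw [eq_top_iff]
  intro x _
  have hx : x = ∑ k ∈ Finset.Icc (-(n : ℤ)) n, p k x := by
    ext a j
    rw [AddSubmonoidClass.coe_finsetSum, Finset.sum_apply, Finset.sum_apply]
    by_cases ha : n < a
    · rw [hn a ha (x.1 a j), hn a ha (Finset.sum _ _)]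
    · by_cases hj : a < j
      · simp [p, x.2.1 a j hj]
      · simp only [p, sc_app]
        rw [← Finset.sum_smul, Finset.sum_ite_eq, if_pos (Finset.mem_Icc.2 (by omega)), one_smul]
  rw [hx]
  refine Submodule.sum_mem _ fun k _ => Submodule.mem_iSup_of_mem k (End.mem_eigenspace_iff.2 ?_)
  ext a j
  simp only [p, XE_app, sc_app, SetLike.val_smul, Pi.smul_apply]
  split_ifs with h
  · rw [← h]; push_cast; rfl
  · simp

theorem γρ (a : ℕ) (x : H (a + 1)) : R.ρ a (R.γ a x) = -R.γ (a + 1) (R.ρ (a + 1) x) :=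
  eq_neg_of_add_eq_zero_left (R.ργ a x)

/-- The abstract structure on the `α`-part. -/
def toS2 (α : K) : S2 K (R.Part α) where
  L := R.LE α
  Λ := R.ΛE α
  Y := R.YE α
  d := R.dE α
  N := R.NE α
  N' := R.N'E α
  X := R.XE α
  σ0 := R.σE α 0
  σ1 := R.σE α 1
  LΛ := by ext x a j; exact R.LΛ a _
  YL := by ext x a j; exact R.hL a _
  YΛ := by ext x a j; exact R.hΛ a _
  Ld := by
    ext x a j
    rcases a with _ | a <;> simp [ad_val, R.Lρ, R.Lγ]
  Yd := by
    ext x a j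
    rcases a with _ | a
    · exact R.hγ 0 _
    · simp only [ad_val, YE_app, dE_succ, map_add]
      have h1 := R.hρ a (x.1 a j)
      have h2 : R.h (a + 1) _ - R.γ (a + 1) (R.h (a + 2) _) = _ := R.hγ (a + 1) (x.1 (a + 2) (j + 1))
      linear_combination (norm := module) h1 + h2
  dd := by
    ext x a j
    rcases a with _ | _ | a
    · simp [R.γγ, x.2.1 0 (j + 1) (by omega)]
    · simp [R.γγ, γρ]
    · simp [R.γγ, R.ρρ, γρ]
  gY := R.gYE α
  NN' := by
    ext x a j
    rcases j with _ | j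
    · simp [ad_val]
    · simp only [ad_val, NE_app, N'E_succ, XE_app]; push_cast; module
  XN := by ext x a j; simp only [ad_val, NE_app, XE_app]; simp; module
  XN' := by
    ext x a j
    rcases j with _ | j
    · simp [ad_val]
    · simp only [ad_val, N'E_succ, XE_app]; simp; module
  NL := by ext x a j; simp [ad_val]
  NΛ := by ext x a j; simp [ad_val]
  NY := by ext x a j; simp [ad_val]
  N'L := by ext x a j; rcases j with _ | j <;> simp [ad_val]
  N'Λ := by ext x a j; rcases j with _ | j <;> simp [ad_val]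
  N'Y := by ext x a j; rcases j with _ | j <;> simp [ad_val]
  XL := by ext x a j; simp [ad_val]
  XΛ := by ext x a j; simp [ad_val]
  XY := by ext x a j; simp [ad_val]
  Nd := by ext x a j; rcases a with _ | a <;> simp [ad_val]
  Xd := by
    ext x a j
    rcases a with _ | a
    · simp only [ad_val, XE_app, dE_zero, map_smul]; push_cast; module
    · simp only [ad_val, XE_app, dE_succ, map_smul]; push_cast; module
  gX := R.gXE α
  σ0L := by ext x a j; simp only [ad_val, σE_app, LE_app, map_smul, sub_self]; rfl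
  σ0Λ := by ext x a j; simp only [ad_val, σE_app, ΛE_app, map_smul, sub_self]; rfl
  σ1L := by ext x a j; simp only [ad_val, σE_app, LE_app, map_smul, sub_self]; rfl
  σ1Λ := by ext x a j; simp only [ad_val, σE_app, ΛE_app, map_smul, sub_self]; rfl
  Xσ0 := by
    ext x a j
    rcases a with _ | a
    · rcases j with _ | j
      · simp [σE_app]
      · simp [σE_app, x.2.1 0 (j + 1) (by omega)]
    · simp [σE_app]
  N'σ0 := by
    ext x a j
    rcases j with _ | j
    · simp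
    · rcases a with _ | a
      · rcases j with _ | j
        · simp [σE_app]
        · simp [σE_app, x.2.1 0 (j + 1) (by omega)]
      · simp [σE_app]
  σ0d := by
    ext x a j
    rcases a with _ | a <;> simp [σE_app]
  dσ0 := by
    ext x a j
    rcases a with _ | _ | a <;> simp [σE_app]

theorem z_val (α : K) (u : R.Part α) (h0 : R.ΛE α u = 0) (a j : ℕ) :
    ((R.toS2 α).z u).1 (a + 1) j = R.Lap a (u.1 (a + 1) j) := by
  have := R.fd α
  rw [(R.toS2 α).z_prim u h0]
  change (2 : K) • (R.dE α (R.ΛE α (R.N'E α (R.dE α u)))).1 (a + 1) j -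
    (R.dE α (R.ΛE α (R.dE α (R.N'E α u)))).1 (a + 1) j -
    (R.N'E α (R.dE α (R.ΛE α (R.dE α u)))).1 (a + 1) j -
    (R.ΛE α (R.dE α (R.N'E α (R.dE α u)))).1 (a + 1) j = _
  rcases a with _ | a <;> rcases j with _ | j <;>
  · simp only [Lap, dE_zero, dE_succ, ΛE_app, N'E_zero, N'E_succ, map_add, map_smul, map_zero,
      R.ρρ, R.γγ, γρ, LinearMap.sub_apply, LinearMap.smul_apply, LinearMap.comp_apply, map_neg,
      zero_add, add_assoc, Nat.reduceAdd]
    push_cast
    module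

theorem mem_Pr {α : K} {a : ℕ} {m : ℤ} {x : H a} : x ∈ R.Pr α a m ↔
    x ∈ (R.Φ a).maxGenEigenspace α ∧ R.Λ a x = 0 ∧ R.h a x = (m : K) • x := by
  simp only [Pr, Submodule.mem_inf, LinearMap.mem_ker, End.mem_eigenspace_iff, and_assoc]

theorem comp_mem {α : K} {m : ℤ} (u : R.Part α) (h0 : R.ΛE α u = 0) (hm : R.YE α u = (m : K) • u)
    (a j : ℕ) : u.1 a j ∈ R.Pr α a m :=
  R.mem_Pr.2 ⟨u.2.2 a j, congrFun (congrFun (congrArg Subtype.val h0) a) j,
    congrFun (congrFun (congrArg Subtype.val hm) a) j⟩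

theorem z_keep {α : K} {m : ℤ} (u : R.Part α) (h0 : R.ΛE α u = 0) (hm : R.YE α u = (m : K) • u) :
    R.ΛE α ((R.toS2 α).z u) = 0 ∧ R.YE α ((R.toS2 α).z u) = (m : K) • (R.toS2 α).z u := by
  have := R.fd α
  constructor
  · have := ad_app0 (R.toS2 α).Λz u
    change R.ΛE α _ = (R.toS2 α).z (R.ΛE α u) at this
    rw [this, h0, map_zero]
  · have := ad_app0 (R.toS2 α).Yz u
    change R.YE α _ = (R.toS2 α).z (R.YE α u) at this
    rw [this, hm, map_smul]

/-- The Laplacian preserves the primitive `α`-part of each weight. -/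
theorem Lap_mem {α : K} {a : ℕ} {m : ℤ} {x : H (a + 1)} (hx : x ∈ R.Pr α (a + 1) m) :
    R.Lap a x ∈ R.Pr α (a + 1) m := by
  classical
  obtain ⟨h1, h2, h3⟩ := R.mem_Pr.1 hx
  let v : ∀ a, ℕ → H a := Pi.single (a + 1) (Pi.single 0 x)
  have hv : ∀ (P : ∀ a, ℕ → H a → Prop), (∀ a j, P a j 0) → P (a + 1) 0 x →
      ∀ a j, P a j (v a j) := by
    intro P p0 p1 a' j
    by_cases ha : a' = a + 1
    · subst ha
      by_cases hj : j = 0
      · subst hj; simpa [v] using p1
      · simpa [v, hj] using p0 _ _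
    · simpa [v, ha] using p0 _ _
  let u : R.Part α := ⟨v, hv (fun a j y => a < j → y = 0) (by simp) (by simp),
    hv (fun a _ y => y ∈ (R.Φ a).maxGenEigenspace α) (by simp) h1⟩
  have h0 : R.ΛE α u = 0 := by
    ext a' j; exact hv (fun a _ y => R.Λ a y = 0) (by simp) h2 a' j
  have hm : R.YE α u = (m : K) • u := by
    ext a' j; exact hv (fun a _ y => R.h a y = (m : K) • y) (by simp) h3 a' j
  have h4 := R.comp_mem _ (R.z_keep u h0 hm).1 (R.z_keep u h0 hm).2 (a + 1) 0
  rw [R.z_val α u h0] at h4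
  simpa [u, v] using h4

/-- Multiplicity at most one is a special case of semisimplicity at zero. -/
theorem SS.lap {α : K} {a : ℕ} {m : ℤ} (h : R.SS α a m) :
    ∀ x ∈ R.Pr α (a + 1) m, R.Lap a (R.Lap a x) = 0 → R.Lap a x = 0 := by
  refine h.elim (fun h1 x hx h0 => ?_) id
  by_contra hne
  obtain ⟨v, hv⟩ := finrank_le_one_iff.1 h1
  obtain ⟨s, hs⟩ := hv ⟨x, hx⟩
  obtain ⟨t, ht⟩ := hv ⟨_, R.Lap_mem hx⟩
  have hs' : s • v.1 = x := congrArg Subtype.val hs
  have ht' : t • v.1 = R.Lap a x := congrArg Subtype.val ht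
  have ht0 : t ≠ 0 := by rintro rfl; exact hne (by rw [← ht', zero_smul])
  rw [← ht', map_smul] at h0
  apply hne
  rw [← hs', map_smul, (smul_eq_zero.1 h0).resolve_left ht0, smul_zero]

theorem z_comp {α : K} {a : ℕ} {m : ℤ} (h : R.SS α a m) (k : ℕ) : ∀ u : R.Part α,
    R.ΛE α u = 0 → R.YE α u = (m : K) • u → ∀ j, (((R.toS2 α).z ^ k) u).1 (a + 1) j = 0 →
    ((R.toS2 α).z u).1 (a + 1) j = 0 := by
  induction k with
  | zero =>
    intro u h0 _ j hj
    rw [R.z_val α u h0, show u.1 (a + 1) j = 0 from hj, map_zero]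
  | succ k ih =>
    intro u h0 hm j hj
    obtain ⟨b1, b2⟩ := R.z_keep u h0 hm
    have h1 := ih _ b1 b2 j (by rwa [pow_succ] at hj)
    rw [R.z_val α _ b1, R.z_val α u h0] at h1
    rw [R.z_val α u h0]
    exact h.lap R _ (R.comp_mem u h0 hm _ _) h1

theorem Lpow (α : K) (k : ℕ) (x : R.Part α) (a j : ℕ) :
    ((R.LE α ^ k) x).1 a j = (R.L a ^ k) (x.1 a j) := by
  induction k with
  | zero => rfl
  | succ k ih => rw [pow_succ', pow_succ', End.mul_apply, End.mul_apply, LE_app, ih]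

theorem Npow (α : K) (k : ℕ) : ∀ (x : R.Part α) (a j : ℕ), ((R.NE α ^ k) x).1 a j = x.1 a (j + k) := by
  induction k with
  | zero => intro x a j; rfl
  | succ k ih => intro x a j; rw [pow_succ, End.mul_apply, ih, NE_app, add_assoc]

theorem ex_iff {α : K} (x : R.Part α) (y : ∀ a, ℕ → H a) (h : x.1 = y) :
    x ∈ LinearMap.range (R.dE α) ↔ R.Ex α y := by
  subst h
  exact ⟨fun ⟨w, hw⟩ => ⟨w.1, w.2, congrArg Subtype.val hw⟩,
    fun ⟨w, hw, h⟩ => ⟨⟨w, hw⟩, Subtype.ext h⟩⟩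

theorem cyc_iff {α : K} {m : ℤ} {c : K} (hc : (m : K) = c) (x : R.Part α) :
    R.Cyc α m x.1 ↔ R.dE α x = 0 ∧ R.YE α x = c • x := by
  subst hc
  exact ⟨fun h => ⟨Subtype.ext h.2.1, by ext a j; exact h.2.2 a j⟩,
    fun h => ⟨x.2, congrArg Subtype.val h.1,
      fun a j => congrFun (congrFun (congrArg Subtype.val h.2) a) j⟩⟩

theorem col_iff {α : K} {p : ℤ} {c : K} (hc : (p : K) = c) (x : R.Part α) :
    (∀ a j : ℕ, (a : ℤ) - 2 * j ≠ p → x.1 a j = 0) ↔ R.XE α x = c • x := by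
  subst hc
  constructor
  · intro h
    ext a j
    by_cases hp : (a : ℤ) - 2 * j = p
    · rw [← hp]; simp
    · simp [h a j hp]
  · intro h a j hp
    have h1 : ((a : K) - 2 * j) • x.1 a j = (p : K) • x.1 a j :=
      congrFun (congrFun (congrArg Subtype.val h) a) j
    rw [← sub_eq_zero, ← sub_smul] at h1
    refine (smul_eq_zero.1 h1).resolve_left ?_
    have : ((a : ℤ) - 2 * j - p : ℤ) ≠ 0 := sub_ne_zero.2 hp
    exact_mod_cast this

theorem prim_iff {α : K} {p : ℤ} {c : K} (hc : (p : K) = c) (b : ℕ) (x : R.Part α) :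
    R.Prim α p b x.1 ↔ R.dE α x = 0 ∧ R.XE α x = c • x ∧ R.YE α x = (-(b : K)) • x ∧
      (R.LE α ^ (b + 1)) x ∈ LinearMap.range (R.dE α) := by
  rw [Prim, R.cyc_iff (c := -(b : K)) (by simp), R.col_iff hc,
    R.ex_iff _ _ (funext fun a => funext fun j => R.Lpow α (b + 1) x a j)]
  tauto

theorem criterion (α : K) (b : ℕ) (hl : R.HL α) (h0 : ∀ a, R.SS α a (-b))
    (h1 : R.SS α 0 (-b - 1)) (h2 : R.SS α 0 (-b + 1)) : R.WM α b := by
  have := R.fd α
  have HL' : (R.toS2 α).HL := by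
    refine ⟨fun k x hd hy hx => ?_, fun k y hd hy => ?_⟩
    · exact (R.ex_iff x _ rfl).2 ((hl k).1 x.1 ((R.cyc_iff (by simp) x).2 ⟨hd, hy⟩)
        ((R.ex_iff _ _ (funext fun a => funext fun j => R.Lpow α k x a j)).1 hx))
    · obtain ⟨x, hx, hx'⟩ := (hl k).2 y.1 ((R.cyc_iff (by simp) y).2 ⟨hd, hy⟩)
      have h3 := (R.cyc_iff (c := -(k : K)) (by simp) ⟨x, hx.1⟩).1 hx
      refine ⟨⟨x, hx.1⟩, h3.1, h3.2, (R.ex_iff _ _ ?_).2 hx'⟩
      ext a j
      exact congrArg (· - y.1 a j) (R.Lpow α k ⟨x, hx.1⟩ a j)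
  have one : ∀ m : ℤ, R.SS α 0 m → ∀ u, (R.toS2 α).Λ u = 0 → (R.toS2 α).Y u = (m : K) • u →
      ∀ k : ℕ, ((R.toS2 α).z ^ k) u = 0 → (R.toS2 α).σ1 ((R.toS2 α).z u) = 0 := by
    intro m hm u hu hy k hk
    ext a j
    change (if a = 1 then (1 : K) else 0) • ((R.toS2 α).z u).1 a j = 0
    split_ifs with ha
    · subst ha
      rw [R.z_comp hm k u hu hy j (by rw [hk]; rfl), smul_zero]
    · simp
  intro r
  obtain ⟨m1, m2⟩ := (R.toS2 α).main HL' b (fun u hu hy k hk => by
    ext a j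
    change _ = (if a = 0 then (1 : K) else 0) • ((R.toS2 α).z u).1 a j
    rcases a with _ | a
    · simp
    · rw [R.z_comp (h0 a) k u hu hy j (by rw [hk]; rfl), smul_zero]) (one _ h1) (one _ h2) r
  constructor
  · intro x hx hN
    obtain ⟨b1, b2, b3, b4⟩ := (R.prim_iff (c := -(r : K)) (by simp) b ⟨x, hx.1.1⟩).1 hx
    exact (R.ex_iff ⟨x, hx.1.1⟩ _ rfl).1 (m1 _ b1 b2 b3 b4
      ((R.ex_iff _ _ (funext fun a => funext fun j => R.Npow α r ⟨x, hx.1.1⟩ a j)).2 hN))
  · intro y hy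
    obtain ⟨b1, b2, b3, b4⟩ := (R.prim_iff (c := (r : K)) (by simp) b ⟨y, hy.1.1⟩).1 hy
    obtain ⟨x, c1, c2, c3, c4, c5⟩ := m2 _ b1 b2 b3 b4
    refine ⟨x.1, (R.prim_iff (c := -(r : K)) (by simp) b x).2 ⟨c1, c2, c3, c4⟩,
      (R.ex_iff _ _ ?_).1 c5⟩
    ext a j
    exact congrArg (· - y a j) (R.Npow α r x a j)

end RZ

end Pool.Agent.P.MP_cd312e_ag
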