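import Mathlib

/-!
Linear algebra for sl2-triples acting on a finite-dimensional space: weight projections,
hard Lefschetz modulo a subspace, highest weight operators, Fitting projection, truncated
exponential.
-/

namespace RZW

open Module

variable {K E : Type*} [Field K] [AddCommGroup E] [Module K E]

/-- Weight projections of an operator with integer eigenvalues. -/
structure Grad (h : End K E) where
  π : ℤ → End K E
  M : ℕ
  wt : ∀ (k : ℤ) x, h (π k x) = (k : K) • π k x
  same : ∀ (k : ℤ) x, h x = (k : K) • x → π k x = x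
  ne : ∀ (k m : ℤ) x, h x = (m : K) • x → k ≠ m → π k x = 0
  bd : ∀ (k : ℤ) x, h x = (k : K) • x → (M : ℤ) < |k| → x = 0
  sum : ∀ x, ∑ k ∈ Finset.Icc (-(M : ℤ)) M, π k x = x

theorem exists_bound [CharZero K] [FiniteDimensional K E] (h : End K E) :
    ∃ M : ℕ, ∀ (k : ℤ) x, h x = (k : K) • x → (M : ℤ) < |k| → x = 0 := by
  have hfin : Set.Finite ((fun k : ℤ => (k : K)) ⁻¹' {μ | h.HasEigenvalue μ}) :=
    h.finite_hasEigenvalue.preimage (Int.cast_injective.injOn)
  obtain ⟨M, hM⟩ := (hfin.image (fun k : ℤ => k.natAbs)).bddAbove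
  refine ⟨M, fun k x hx hk => ?_⟩
  by_contra hne
  have : h.HasEigenvalue (k : K) :=
    End.hasEigenvalue_of_hasEigenvector ⟨End.mem_eigenspace_iff.2 hx, hne⟩
  have h2 : k.natAbs ≤ M := hM ⟨k, this, rfl⟩
  have h3 : |k| = (k.natAbs : ℤ) := Int.abs_eq_natAbs k
  omega

theorem exists_grad [CharZero K] [FiniteDimensional K E] (h : End K E)
    (ht : ⨆ k : ℤ, h.eigenspace (k : K) = ⊤) : Nonempty (Grad h) := by
  classical
  obtain ⟨M, hM⟩ := exists_bound h
  have hind : iSupIndep (fun k : ℤ => h.eigenspace (k : K)) :=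
    h.eigenspaces_iSupIndep.comp Int.cast_injective
  have hint := DirectSum.isInternal_submodule_of_iSupIndep_of_iSup_eq_top hind ht
  let _ := hint.chooseDecomposition
  let A : ℤ → Submodule K E := fun k => h.eigenspace (k : K)
  let p : ℤ → End K E := fun k =>
    (A k).subtype ∘ₗ DirectSum.component K ℤ (fun k => A k) k ∘ₗ
      (DirectSum.decomposeLinearEquiv A).toLinearMap
  have hp : ∀ k x, p k x = (DirectSum.decompose A x k : E) := fun k x => rfl
  have same : ∀ (k : ℤ) x, h x = (k : K) • x → p k x = x := fun k x hx => by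
    rw [hp]; exact DirectSum.decompose_of_mem_same A (End.mem_eigenspace_iff.2 hx)
  have ne : ∀ (k m : ℤ) x, h x = (m : K) • x → k ≠ m → p k x = 0 := fun k m x hx hkm => by
    rw [hp]; exact DirectSum.decompose_of_mem_ne A (End.mem_eigenspace_iff.2 hx) (Ne.symm hkm)
  refine ⟨⟨p, M, fun k x => ?_, same, ne, hM, fun x => ?_⟩⟩
  · rw [hp]; exact End.mem_eigenspace_iff.1 (DirectSum.decompose A x k).2
  · have hx : x ∈ ⨆ k : ℤ, h.eigenspace (k : K) := ht ▸ Submodule.mem_top
    induction hx using Submodule.iSup_induction' with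
    | mem m x hx =>
      have hx' := End.mem_eigenspace_iff.1 hx
      by_cases hm : (M : ℤ) < |m|
      · rw [hM m x hx' hm]; simp
      · rw [Finset.sum_eq_single m]
        · exact same m x hx'
        · intro k _ hk; exact ne k m x hx' hk
        · intro hm'
          exfalso; apply hm'
          rw [Finset.mem_Icc]
          have := abs_le.1 (not_lt.1 hm)
          exact this
    | zero => simp
    | add x y _ _ hx hy =>
      simp only [map_add, Finset.sum_add_distrib, hx, hy]

namespace Grad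

variable {h : End K E} (G : Grad h)

theorem ind (S Q : Submodule K E) (hS : ∀ k, ∀ x ∈ S, G.π k x ∈ S)
    (hQ : ∀ (k : ℤ), ∀ x ∈ S, h x = (k : K) • x → x ∈ Q) : S ≤ Q := by
  intro x hx
  rw [← G.sum x]
  exact Q.sum_mem fun k _ => hQ k _ (hS k x hx) (G.wt k x)

theorem comm (T : End K E) (s : ℤ) (hT : ∀ x, h (T x) = T (h x) + (s : K) • T x) (k : ℤ) (x : E) :
    G.π (k + s) (T x) = T (G.π k x) := by
  have key : ∀ (m : ℤ) y, h y = (m : K) • y → G.π (k + s) (T y) = T (G.π k y) := by
    intro m y hy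
    have hTy : h (T y) = ((m + s : ℤ) : K) • T y := by
      rw [hT, hy, map_smul, Int.cast_add, add_smul]
    by_cases hk : k = m
    · subst hk; rw [G.same _ _ hy, G.same _ _ hTy]
    · rw [G.ne k m y hy hk, G.ne (k + s) (m + s) _ hTy (by omega), map_zero]
  conv_lhs => rw [← G.sum x]
  conv_rhs => rw [← G.sum x]
  simp only [map_sum]
  exact Finset.sum_congr rfl fun m _ => key m _ (G.wt m x)

theorem comm' (T : End K E) (s : ℤ) (hT : ∀ x, h (T x) = T (h x) + (s : K) • T x) (k : ℤ) (x : E) :
    G.π k (T x) = T (G.π (k - s) x) := by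
  rw [← G.comm T s hT]; congr 2; ring

theorem comm0 (T : End K E) (hT : ∀ x, h (T x) = T (h x)) (k : ℤ) (x : E) :
    G.π k (T x) = T (G.π k x) := by
  have := G.comm T 0 (fun x => by simp [hT]) k x
  simpa using this

end Grad

section LemS

variable [CharZero K] (e f h : End K E)

omit [CharZero K] in
theorem wt_pow (hhe : ∀ x, h (e x) = e (h x) + (2 : K) • e x) (m : ℤ) (u : E)
    (hu : h u = (m : K) • u) (j : ℕ) : h ((e ^ j) u) = ((m + 2 * j : ℤ) : K) • (e ^ j) u := by
  induction j with
  | zero => simpa using hu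
  | succ j ih =>
    rw [pow_succ', End.mul_apply, hhe, ih, map_smul, ← add_smul]
    congr 1; push_cast; ring

omit [CharZero K] in
theorem f_pow (hef : ∀ x, e (f x) = f (e x) + h x) (hhe : ∀ x, h (e x) = e (h x) + (2 : K) • e x)
    (m : ℤ) (u : E) (hu : h u = (m : K) • u) (j : ℕ) :
    f ((e ^ (j + 1)) u) = (e ^ (j + 1)) (f u) - (((j : K) + 1) * ((m : K) + j)) • (e ^ j) u := by
  induction j with
  | zero =>
    simp only [zero_add, pow_one, pow_zero, End.one_apply, Nat.cast_zero, add_zero, one_mul]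
    rw [hef, hu]; abel
  | succ j ih =>
    have h1 : f ((e ^ (j + 1 + 1)) u) = e (f ((e ^ (j + 1)) u)) - h ((e ^ (j + 1)) u) := by
      rw [pow_succ' e (j + 1), End.mul_apply, hef]; abel
    rw [h1, ih, wt_pow e h hhe m u hu, map_sub, map_smul, ← End.mul_apply e (e ^ (j + 1)),
      ← End.mul_apply e (e ^ j), ← pow_succ', ← pow_succ']
    push_cast
    module

omit [CharZero K] in
theorem pow_mem (S : Submodule K E) (hS : ∀ u ∈ S, e u ∈ S) (j : ℕ) :
    ∀ u ∈ S, (e ^ j) u ∈ S := by
  induction j with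
  | zero => simp
  | succ j ih => intro u hu; rw [pow_succ', End.mul_apply]; exact hS _ (ih u hu)

variable (M : ℕ) (hef : ∀ x, e (f x) = f (e x) + h x)
  (hhe : ∀ x, h (e x) = e (h x) + (2 : K) • e x)
  (hbd : ∀ (k : ℤ) x, h x = (k : K) • x → (M : ℤ) < |k| → x = 0)
  (Z I : Submodule K E) (hZ : ∀ u ∈ Z, e u ∈ Z) (hI : ∀ u ∈ I, e u ∈ I)
  (hf1 : ∀ (m : ℤ), ∀ u ∈ Z, h u = (m : K) • u →
    ∃ u1 ∈ Z, h u1 = ((m - 2 : ℤ) : K) • u1 ∧ f u - u1 ∈ I)
  (hf2 : ∀ u ∈ Z, u ∈ I → f u ∈ I)

include hef hhe hbd hZ hI hf1 hf2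

theorem lemS_inj (m : ℤ) (j : ℕ) (u : E) (huZ : u ∈ Z) (hu : h u = (m : K) • u)
    (hj : m + j ≤ 0) (hju : (e ^ j) u ∈ I) : u ∈ I := by
  have key : ∀ (n : ℕ) (m : ℤ), m + M < n → ∀ (j : ℕ) (u : E), u ∈ Z → h u = (m : K) • u →
      m + j ≤ 0 → (e ^ j) u ∈ I → u ∈ I := by
    intro n
    induction n with
    | zero =>
      intro m hm j u _ hu _ _
      rw [hbd m u hu (by rw [lt_abs]; right; omega)]; exact I.zero_mem
    | succ n ih =>
      intro m hm j
      induction j with
      | zero => intro u _ _ _ h0; simpa using h0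
      | succ j ihj =>
        intro u huZ hu hj hju
        obtain ⟨u1, hu1Z, hu1, hd⟩ := hf1 m u huZ hu
        have h1 : f ((e ^ (j + 1)) u) ∈ I := hf2 _ (pow_mem e Z hZ _ _ huZ) hju
        rw [f_pow e f h hef hhe m u hu] at h1
        have h2 : (e ^ (j + 1)) (f u) - (e ^ (j + 1)) u1 ∈ I := by
          rw [← map_sub]; exact pow_mem e I hI _ _ hd
        have h3 : (e ^ (j + 1)) u1 - (((j : K) + 1) * ((m : K) + j)) • (e ^ j) u ∈ I := by
          have := I.sub_mem h1 h2
          convert this using 1; abel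
        have h4 : (e ^ (j + 1 + 1)) u1 ∈ I := by
          have h5 := hI _ h3
          rw [map_sub, map_smul, ← End.mul_apply e (e ^ (j + 1)), ← End.mul_apply e (e ^ j),
            ← pow_succ', ← pow_succ'] at h5
          have := I.add_mem h5 (I.smul_mem (((j : K) + 1) * ((m : K) + j)) hju)
          simpa using this
        have h6 : u1 ∈ I := ih (m - 2) (by omega) (j + 1 + 1) u1 hu1Z hu1 (by push_cast; omega) h4
        have h7 : (((j : K) + 1) * ((m : K) + j)) • (e ^ j) u ∈ I := by
          have := I.sub_mem (pow_mem e I hI (j + 1) _ h6) h3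
          simpa using this
        have hc : ((j : K) + 1) * ((m : K) + j) ≠ 0 := by
          refine mul_ne_zero (by exact_mod_cast Nat.succ_ne_zero j) ?_
          have : (m + j : ℤ) ≠ 0 := by push_cast at hj; omega
          exact_mod_cast this
        exact ihj u huZ hu (by push_cast at hj; omega) ((I.smul_mem_iff hc).1 h7)
  exact key (m + M + 1).toNat m (by omega) j u huZ hu hj hju

omit hhe hbd in
theorem lemS_prim (k : ℕ) (v : E) (hvZ : v ∈ Z) (hv : h v = (k : K) • v) (hev : e v ∈ I) :
    ∃ u ∈ Z, h u = (-(k : K)) • u ∧ (e ^ k) u - v ∈ I := by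
  have key : ∀ j : ℕ, j ≤ k → ∃ w ∈ Z, h w = ((k - 2 * j : ℤ) : K) • w ∧
      f (e w) - ((j : K) * ((k : K) - j + 1)) • w ∈ I ∧ ∃ c : K, c ≠ 0 ∧ (e ^ j) w - c • v ∈ I := by
    intro j
    induction j with
    | zero =>
      intro _
      refine ⟨v, hvZ, by simpa using hv, ?_, 1, one_ne_zero, by simp⟩
      simpa using hf2 _ (hZ _ hvZ) hev
    | succ j ih =>
      intro hj
      obtain ⟨w, hwZ, hw, hfe, c, hc, hcw⟩ := ih (by omega)
      obtain ⟨w', hw'Z, hw', hd⟩ := hf1 _ w hwZ hw
      have h1 : e w' - (((j : K) + 1) * ((k : K) - j)) • w ∈ I := by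
        have h2 := hI _ hd
        rw [map_sub, hef, hw] at h2
        have := I.sub_mem hfe h2
        convert this using 1
        push_cast; module
      have h1Z : e w' - (((j : K) + 1) * ((k : K) - j)) • w ∈ Z :=
        Z.sub_mem (hZ _ hw'Z) (Z.smul_mem _ hwZ)
      have hc' : ((j : K) + 1) * ((k : K) - j) ≠ 0 := by
        refine mul_ne_zero (by exact_mod_cast Nat.succ_ne_zero j) ?_
        have : ((k : ℤ) - j : ℤ) ≠ 0 := by omega
        exact_mod_cast this
      refine ⟨w', hw'Z, ?_, ?_, ((j : K) + 1) * ((k : K) - j) * c, mul_ne_zero hc' hc, ?_⟩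
      · rw [hw']; congr 1; push_cast; ring
      · have h3 := hf2 _ h1Z h1
        rw [map_sub, map_smul] at h3
        have := I.add_mem h3 (I.smul_mem (((j : K) + 1) * ((k : K) - j)) hd)
        convert this using 1
        push_cast; module
      · have h3 := pow_mem e I hI j _ h1
        rw [map_sub, map_smul, ← End.mul_apply, ← pow_succ] at h3
        have := I.add_mem h3 (I.smul_mem (((j : K) + 1) * ((k : K) - j)) hcw)
        convert this using 1
        module
  obtain ⟨w, hwZ, hw, -, c, hc, hcw⟩ := key k le_rfl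
  refine ⟨c⁻¹ • w, Z.smul_mem _ hwZ, ?_, ?_⟩
  · rw [map_smul, hw, smul_comm]; congr 1; push_cast; ring
  · have := I.smul_mem c⁻¹ hcw
    rw [smul_sub, smul_smul, inv_mul_cancel₀ hc, one_smul] at this
    rwa [map_smul]

theorem lemS_surj (k : ℕ) (v : E) (hvZ : v ∈ Z) (hv : h v = (k : K) • v) :
    ∃ u ∈ Z, h u = (-(k : K)) • u ∧ (e ^ k) u - v ∈ I := by
  have key : ∀ (n k : ℕ), M < k + n → ∀ v ∈ Z, h v = (k : K) • v →
      ∃ u ∈ Z, h u = (-(k : K)) • u ∧ (e ^ k) u - v ∈ I := by
    intro n
    induction n with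
    | zero =>
      intro k hk v _ hv
      have : v = 0 := hbd k v (by simpa using hv) (by rw [lt_abs]; left; omega)
      exact ⟨0, Z.zero_mem, by simp, by simp [this]⟩
    | succ n ih =>
      intro k hk v hvZ hv
      have hev : h (e v) = ((k + 2 : ℕ) : K) • e v := by
        rw [hhe, hv, map_smul]; push_cast; module
      obtain ⟨u, huZ, hu, hd⟩ := ih (k + 2) (by omega) (e v) (hZ _ hvZ) hev
      have hu' : h u = ((-(k + 2) : ℤ) : K) • u := by rw [hu]; push_cast; rfl
      have hw := wt_pow e h hhe _ u hu' (k + 1)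
      have hw1 := wt_pow e h hhe _ u hu' 1
      obtain ⟨u', hu'Z, hu'', hd'⟩ := lemS_prim e f h hef Z I hZ hI hf1 hf2 k
        (v - (e ^ (k + 1)) u) (Z.sub_mem hvZ (pow_mem e Z hZ _ _ huZ))
        (by rw [map_sub, hv, hw, smul_sub]; congr 2; push_cast; ring)
        (by
          rw [map_sub, ← End.mul_apply e (e ^ (k + 1)), ← pow_succ']
          have := I.neg_mem hd
          convert this using 1; abel)
      refine ⟨u' + e u, Z.add_mem hu'Z (hZ _ huZ), ?_, ?_⟩
      · rw [pow_one] at hw1
        rw [map_add, hu'', hw1, smul_add]; congr 2; push_cast; ring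
      · rw [map_add, ← End.mul_apply (e ^ k) e, ← pow_succ]
        convert hd' using 1; abel
  exact key (M + 1) k (by omega) v hvZ hv

end LemS

attribute [local instance 100] LieRing.ofAssociativeRing in
/-- An operator that commutes with `e` and has negative weight vanishes. -/
theorem hw_zero [CharZero K] [FiniteDimensional K E] (e f h T : End K E) (hef : e * f - f * e = h)
    (hhe : h * e - e * h = (2 : K) • e) (hhf : h * f - f * h = (-2 : K) • f) (k : ℕ)
    (hT : h * T - T * h = (-((k : K) + 1)) • T) (heT : e * T = T * e) : T = 0 := by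
  have hk : -((k : K) + 1) ≠ 0 := neg_ne_zero.2 (by exact_mod_cast Nat.succ_ne_zero k)
  by_contra hne
  by_cases h0 : h = 0
  · rw [h0, zero_mul, mul_zero, sub_zero] at hT
    exact hne ((smul_eq_zero.1 hT.symm).resolve_left hk)
  · have t : IsSl2Triple h e f := ⟨h0, hef, by rw [Ring.lie_def, hhe, two_smul, two_smul],
      by rw [Ring.lie_def, hhf, neg_smul, two_smul, two_smul]⟩
    have P : t.HasPrimitiveVectorWith T (-((k : K) + 1)) :=
      ⟨hne, hT, by rw [Ring.lie_def, heT, sub_self]⟩
    obtain ⟨n, hn⟩ := P.exists_nat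
    have : ((n + k + 1 : ℕ) : K) = 0 := by push_cast; rw [← hn]; ring
    exact Nat.succ_ne_zero _ (Nat.cast_eq_zero.1 this)

/-- Fitting projection onto the generalised kernel. -/
theorem exists_fitting [FiniteDimensional K E] (z : End K E) :
    ∃ (p R : End K E) (k : ℕ), p * p = p ∧ z ^ k * p = 0 ∧ 1 - p = z * R ∧
      ∀ T, Commute T z → Commute T p ∧ Commute T R := by
  have hint : IsIntegral K z := Algebra.IsIntegral.isIntegral z
  obtain ⟨q, hq, hnd⟩ := Polynomial.exists_eq_pow_rootMultiplicity_mul_and_not_dvd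
    (minpoly K z) (minpoly.ne_zero hint) 0
  set k := Polynomial.rootMultiplicity 0 (minpoly K z)
  simp only [map_zero, sub_zero] at hq hnd
  have hcop : IsCoprime (Polynomial.X ^ (k + 1) : Polynomial K) q :=
    ((Polynomial.irreducible_X.coprime_iff_not_dvd).2 hnd).pow_left
  obtain ⟨A, B, hAB⟩ := hcop
  have h0 : Polynomial.aeval z (Polynomial.X ^ k * q) = 0 := by rw [← hq]; exact minpoly.aeval K z
  have h1 : z ^ k * Polynomial.aeval z (B * q) = 0 := by
    have : Polynomial.aeval z (B * (Polynomial.X ^ k * q)) = 0 := by rw [map_mul, h0, mul_zero]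
    rw [← this]
    have h2 : B * (Polynomial.X ^ k * q) = Polynomial.X ^ k * (B * q) := by ring
    rw [h2, map_mul (Polynomial.aeval z) (Polynomial.X ^ k)]; simp
  have h2 : 1 - Polynomial.aeval z (B * q) = z * Polynomial.aeval z (A * Polynomial.X ^ k) := by
    have h3 : (1 : Polynomial K) - B * q = Polynomial.X * (A * Polynomial.X ^ k) := by
      rw [← hAB]; ring
    have := congrArg (Polynomial.aeval z) h3
    rw [map_sub, map_one, map_mul (Polynomial.aeval z) Polynomial.X, Polynomial.aeval_X] at this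
    exact this
  have hc : ∀ T, Commute T z → ∀ P : Polynomial K, Commute T (Polynomial.aeval z P) := by
    intro T hT P
    induction P using Polynomial.induction_on' with
    | add p q hp hq => rw [map_add]; exact hp.add_right hq
    | monomial n a =>
      rw [Polynomial.aeval_monomial]
      exact (Algebra.commute_algebraMap_right a T).mul_right (hT.pow_right n)
  refine ⟨Polynomial.aeval z (B * q), Polynomial.aeval z (A * Polynomial.X ^ k), k, ?_, h1, h2,
    fun T hT => ⟨hc T hT _, hc T hT _⟩⟩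
  have h4 : (1 - Polynomial.aeval z (B * q)) * Polynomial.aeval z (B * q) = 0 := by
    rw [h2, map_mul (Polynomial.aeval z) A, map_pow, Polynomial.aeval_X, mul_assoc, mul_assoc, h1,
      mul_zero, mul_zero]
  rw [sub_mul, one_mul, sub_eq_zero] at h4
  exact h4.symm

/-- Truncated exponential of a nilpotent operator. -/
theorem exists_exp [CharZero K] (T d b : End K E) (n : ℕ) (hn : T ^ n = 0)
    (h1 : ∀ x, T (d x) = d (T x) + b x) (h2 : ∀ x, T (b x) = b (T x)) :
    ∃ U : End K E, (∀ x, U (d x) = d (U x) + b (U x)) ∧ Function.Injective U ∧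
      ∀ S : Submodule K E, (∀ x ∈ S, T x ∈ S) →
        (∀ x ∈ S, U x ∈ S) ∧ ∀ x ∈ S, ∃ y ∈ S, U y = x := by
  let u : ℕ → End K E := fun m => ∑ k ∈ Finset.range m, ((k.factorial : K)⁻¹) • T ^ k
  have hb : ∀ (k : ℕ) x, (T ^ k) (b x) = b ((T ^ k) x) := by
    intro k
    induction k with
    | zero => simp
    | succ k ih => intro x; rw [pow_succ', End.mul_apply, ih, h2]; rfl
  have hp : ∀ (k : ℕ) x, (T ^ (k + 1)) (d x) = d ((T ^ (k + 1)) x) + ((k : K) + 1) • b ((T ^ k) x) := by
    intro k
    induction k with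
    | zero => intro x; simp [h1]
    | succ k ih =>
      intro x
      rw [pow_succ' T (k + 1), End.mul_apply, ih, map_add, h1, map_smul, h2, End.mul_apply,
        ← End.mul_apply T (T ^ k), ← pow_succ']
      push_cast; module
  have hu : ∀ (m : ℕ) x, u (m + 1) (d x) = d (u (m + 1) x) + b (u m x) := by
    intro m
    induction m with
    | zero => intro x; simp [u]
    | succ m ih =>
      intro x
      have e1 : ∀ (m : ℕ) y, u (m + 1) y = u m y + ((m.factorial : K)⁻¹) • (T ^ m) y := by
        intro m y; simp [u, Finset.sum_range_succ]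
      rw [e1 (m + 1), ih, hp, e1 (m + 1) x, e1 m x]
      have hf : ((m.factorial : K)) ≠ 0 := by exact_mod_cast m.factorial_ne_zero
      have hm : ((m : K) + 1) ≠ 0 := by exact_mod_cast Nat.succ_ne_zero m
      have e2 : (((m + 1).factorial : K)⁻¹) * ((m : K) + 1) = ((m.factorial : K)⁻¹) := by
        rw [Nat.factorial_succ]; push_cast; field_simp
      simp only [map_add, map_smul, smul_add, smul_smul, e2]
      abel
  have hun : u (n + 1) = u n := by simp [u, Finset.sum_range_succ, hn]
  have hstab : ∀ S : Submodule K E, (∀ x ∈ S, T x ∈ S) → ∀ (m : ℕ), ∀ x ∈ S, u m x ∈ S := by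
    intro S hS m x hx
    simp only [u, LinearMap.sum_apply, LinearMap.smul_apply]
    exact S.sum_mem fun k _ => S.smul_mem _ (pow_mem T S hS k x hx)
  let W : End K E := ∑ k ∈ Finset.range n, (((k + 1).factorial : K)⁻¹) • T ^ k
  have hW : u (n + 1) = 1 + T * W := by
    simp only [u, W, Finset.sum_range_succ', Finset.mul_sum, mul_smul_comm, ← pow_succ']
    simp [add_comm]
  have hTW : Commute T W := by
    refine Commute.sum_right _ _ _ fun k _ => ?_
    exact ((Commute.refl T).pow_right k).smul_right _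
  have hnil : (T * W) ^ n = 0 := by rw [hTW.mul_pow, hn, zero_mul]
  have hWs : ∀ S : Submodule K E, (∀ x ∈ S, T x ∈ S) → ∀ x ∈ S, (T * W) x ∈ S := by
    intro S hS x hx
    rw [End.mul_apply]
    apply hS
    simp only [W, LinearMap.sum_apply, LinearMap.smul_apply]
    exact S.sum_mem fun k _ => S.smul_mem _ (pow_mem T S hS k x hx)
  refine ⟨u (n + 1), fun x => by rw [hu, hun], ?_, fun S hS => ⟨hstab S hS _, ?_⟩⟩
  · have : IsUnit (u (n + 1)) := hW ▸ IsNilpotent.isUnit_one_add ⟨n, hnil⟩
    exact ((End.isUnit_iff _).1 this).1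
  · have key : ∀ (m : ℕ), ∀ x ∈ S, ((T * W) ^ m) x = 0 → ∃ y ∈ S, u (n + 1) y = x := by
      intro m
      induction m with
      | zero => intro x _ hx; exact ⟨0, S.zero_mem, by simpa using hx.symm⟩
      | succ m ih =>
        intro x hx h0
        obtain ⟨y, hy, hy'⟩ := ih ((T * W) x) (hWs S hS x hx) (by rw [← End.mul_apply, ← pow_succ, h0])
        refine ⟨x - y, S.sub_mem hx hy, ?_⟩
        rw [map_sub, hy', hW]; simp
    intro x hx
    exact key n x hx (by rw [hnil]; rfl)

end RZW
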